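import Pool.Agent.Lib.H12S.F6

/-!
# H12G: finite Gabor sums with the Gaussian window and samples on a lattice (MP_ec7a01_an)

Overview: `PROOF.md`.
-/

namespace H12G

open MeasureTheory ComplexConjugate

/-- the exponential sum `∑ c i * exp (ζ i * z)` -/
noncomputable def ex {ι : Type} [Fintype ι] (c ζ : ι → ℂ) (z : ℂ) : ℂ :=
  ∑ i, c i * Complex.exp (ζ i * z)

/-- `κ` with `Im (κ u), Im (κ v) ∈ π ℤ` -/
def Gam (u v κ : ℂ) : Prop :=
  (∃ k : ℤ, (κ * u).im = Real.pi * k) ∧ ∃ k : ℤ, (κ * v).im = Real.pi * k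

open Classical in
/-- the part of `ex c ζ` with exponents in `φ + Γ`, divided by `exp (φ z)` -/
noncomputable def cl (u v : ℂ) {ι : Type} [Fintype ι] (c ζ : ι → ℂ) (φ z : ℂ) : ℂ :=
  ∑ i, if Gam u v (ζ i - φ) then c i * Complex.exp ((ζ i - φ) * z) else 0

/-- `A` is a finite sum of exponentials with exponents in `Γ` -/
def GamSum (u v : ℂ) (A : ℂ → ℂ) : Prop :=
  ∃ (n : ℕ) (a κ : Fin n → ℂ), (∀ i, Gam u v (κ i)) ∧ ∀ z, A z = ex a κ z

/-- `f` is a finite linear combination of time-frequency shifts of the Gaussian `exp (-π t ^ 2)` -/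
def GaborSum (f : ℝ → ℂ) : Prop :=
  ∃ (n : ℕ) (c : Fin n → ℂ) (s w : Fin n → ℝ), ∀ t : ℝ,
    f t = ∑ i, c i * Complex.exp (-Real.pi * (t - s i) ^ 2) *
      Complex.exp (2 * Real.pi * Complex.I * w i * t)

theorem ex_differentiable {ι : Type} [Fintype ι] (c ζ : ι → ℂ) : Differentiable ℂ (ex c ζ) := by
  unfold ex
  fun_prop

end H12G
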