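import Pool.Agent.Lib.H12G.Defs

/-! # H12G, chunk G1 (S): the group `Γ`, entire functions have no zero divisors -/

namespace H12G

open ComplexConjugate

/-- (G1a, S) PROOF. Definition. -/
theorem gam_zero (u v : ℂ) : Gam u v 0 := by
  exact ⟨⟨0, by simp⟩, ⟨0, by simp⟩⟩

/-- (G1b, S) PROOF. Definition, `push_cast`, `ring`. -/
theorem gam_add {u v κ μ : ℂ} (h₁ : Gam u v κ) (h₂ : Gam u v μ) : Gam u v (κ + μ) := by
  obtain ⟨⟨k, hk⟩, ⟨l, hl⟩⟩ := h₁
  obtain ⟨⟨k', hk'⟩, ⟨l', hl'⟩⟩ := h₂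
  refine ⟨⟨k + k', ?_⟩, ⟨l + l', ?_⟩⟩
  · rw [add_mul, Complex.add_im, hk, hk']
    push_cast
    ring
  · rw [add_mul, Complex.add_im, hl, hl']
    push_cast
    ring

/-- (G1c, S) PROOF. Definition. -/
theorem gam_neg {u v κ : ℂ} (h₁ : Gam u v κ) : Gam u v (-κ) := by
  obtain ⟨⟨k, hk⟩, ⟨l, hl⟩⟩ := h₁
  refine ⟨⟨-k, ?_⟩, ⟨-l, ?_⟩⟩
  · rw [neg_mul, Complex.neg_im, hk]
    push_cast
    ring
  · rw [neg_mul, Complex.neg_im, hl]
    push_cast
    ring

/-- (G1d, S) PROOF. `Im (κ (m u + n v)) = π (m k + n l)`, so `exp (κ l)` is `exp` of a real number times `± 1`. -/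
theorem exp_gam_conj {u v κ : ℂ} (h : Gam u v κ) (m n : ℤ) :
    conj (Complex.exp (κ * (m * u + n * v))) = Complex.exp (κ * (m * u + n * v)) := by
  obtain ⟨⟨k, hk⟩, ⟨l, hl⟩⟩ := h
  obtain ⟨j, hj⟩ : ∃ j : ℤ, (κ * (m * u + n * v)).im = Real.pi * j := by
    refine ⟨m * k + n * l, ?_⟩
    have e : κ * (m * u + n * v) = ((m : ℝ) : ℂ) * (κ * u) + ((n : ℝ) : ℂ) * (κ * v) := by
      push_cast
      ring
    rw [e, Complex.add_im, Complex.im_ofReal_mul, Complex.im_ofReal_mul, hk, hl]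
    push_cast
    ring
  rw [← Complex.exp_conj, Complex.exp_eq_exp_iff_exists_int]
  refine ⟨-j, ?_⟩
  apply Complex.ext
  · have e2 : ((↑(-j) : ℂ) * (2 * Real.pi * Complex.I)).re = 0 := by
      simp
    rw [Complex.conj_re, Complex.add_re, e2, add_zero]
  · have e2 : ((↑(-j) : ℂ) * (2 * Real.pi * Complex.I)).im = -(j : ℝ) * (2 * Real.pi) := by
      simp
    rw [Complex.conj_im, Complex.add_im, e2, hj]
    ring

/-- (G1e, S/M) PROOF. If `F z₀ ≠ 0`, then `F ≠ 0` near `z₀`, so `G = 0` near `z₀`, so `G = 0` (identity theorem,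
`AnalyticOnNhd.eq_of_eventuallyEq`, `Differentiable.analyticAt`). -/
theorem entire_mul_eq_zero {F G : ℂ → ℂ} (hF : Differentiable ℂ F) (hG : Differentiable ℂ G)
    (h : ∀ z, F z * G z = 0) : (∀ z, F z = 0) ∨ ∀ z, G z = 0 := by
  by_cases hF0 : ∀ z, F z = 0
  · exact Or.inl hF0
  · right
    push Not at hF0
    obtain ⟨z₀, hz₀⟩ := hF0
    have hnear : ∀ᶠ z in nhds z₀, F z ≠ 0 := hF.continuous.continuousAt.eventually_ne hz₀
    have hG0 : G =ᶠ[nhds z₀] fun _ => 0 := by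
      filter_upwards [hnear] with z hz
      exact (mul_eq_zero.1 (h z)).resolve_left hz
    have h1 : AnalyticOnNhd ℂ G Set.univ := fun z _ => hG.analyticAt z
    have h2 : AnalyticOnNhd ℂ (fun _ : ℂ => (0 : ℂ)) Set.univ := fun z _ => analyticAt_const
    have h3 := h1.eq_of_eventuallyEq h2 hG0
    intro z
    exact congrFun h3 z

end H12G
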