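import Pool.Agent.Lib.H12G.Defs
import Pool.Agent.Lib.H12G.G1

/-! # H12G, chunk G2 (S/M): linear independence of exponentials -/

namespace H12G

open ComplexConjugate

/-- the character `z ↦ exp (ω z)` -/
noncomputable def g2_chi (ω : ℂ) : Multiplicative ℂ →* ℂ where
  toFun z := Complex.exp (ω * Multiplicative.toAdd z)
  map_one' := by simp
  map_mul' x y := by rw [toAdd_mul, mul_add, Complex.exp_add]

theorem g2_inj : Function.Injective g2_chi := by
  intro ω ω' h
  have h1 : ∀ z : ℂ, Complex.exp (ω * z) = Complex.exp (ω' * z) := fun z =>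
    DFunLike.congr_fun h (Multiplicative.ofAdd z)
  have d : ∀ c : ℂ, HasDerivAt (fun z : ℂ => Complex.exp (c * z)) c 0 := by
    intro c
    have e1 : HasDerivAt (fun z : ℂ => c * z) c 0 := by
      simpa using (hasDerivAt_id (0 : ℂ)).const_mul c
    have e2 := e1.cexp
    simpa using e2
  have h2 : (fun z : ℂ => Complex.exp (ω * z)) = fun z => Complex.exp (ω' * z) := funext h1
  have h3 := d ω
  rw [h2] at h3
  exact h3.unique (d ω')

theorem g2_sum {ι : Type} [Fintype ι] (a ζ : ι → ℂ) (W : ℂ → ℂ) :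
    ∑ ω ∈ (open Classical in Finset.univ.image ζ), (∑ i, (open Classical in if ζ i = ω then a i else 0)) * W ω =
      ∑ i, a i * W (ζ i) := by
  classical
  simp only [Finset.sum_mul]
  rw [Finset.sum_comm]
  refine Finset.sum_congr rfl fun i _ => ?_
  rw [Finset.sum_eq_single (ζ i)]
  · rw [if_pos rfl]
  · intro ω _ hω
    rw [if_neg (fun h => hω h.symm), zero_mul]
  · intro h
    exact absurd (Finset.mem_image_of_mem ζ (Finset.mem_univ i)) h

/-- (G2a, S/M) PROOF. `linearIndependent_monoidHom (Multiplicative ℂ) ℂ` for the characters `z ↦ exp (ζ z)`, which are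
different for different `ζ` (derivative at `0`; or `exp ((ζ - ξ) z) = 1` for all `z`). Group the sum by the values of
`ζ`: `∑_{i : ζ i = ω} a i = 0` for every `ω`. -/
theorem coeff_zero {ι : Type} [Fintype ι] (a ζ : ι → ℂ) (h : ∀ z : ℂ, ex a ζ z = 0) (ω : ℂ) :
    ∑ i, (open Classical in if ζ i = ω then a i else 0) = 0 := by
  classical
  have hli : LinearIndependent ℂ fun ω : ℂ => (g2_chi ω : Multiplicative ℂ → ℂ) :=
    (linearIndependent_monoidHom (Multiplicative ℂ) ℂ).comp g2_chi g2_inj
  rw [linearIndependent_iff'] at hli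
  have hs := hli (Finset.univ.image ζ) (fun ω => ∑ i, (open Classical in if ζ i = ω then a i else 0)) (by
    funext z
    have h1 := g2_sum a ζ fun ω => Complex.exp (ω * Multiplicative.toAdd z)
    have h2 : ∑ i, a i * Complex.exp (ζ i * Multiplicative.toAdd z) = 0 := h (Multiplicative.toAdd z)
    rw [h2] at h1
    rw [Finset.sum_apply]
    exact h1)
  by_cases hω : ω ∈ Finset.univ.image ζ
  · exact hs ω hω
  · refine Finset.sum_eq_zero fun i _ => ?_
    rw [if_neg]
    rintro rfl
    exact hω (Finset.mem_image_of_mem ζ (Finset.mem_univ i))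

/-- (G2b, S) PROOF. `∑ i, a i * W (ζ i) = ∑_{ω ∈ image ζ} (∑_{i : ζ i = ω} a i) * W ω`, `coeff_zero`. -/
theorem w_one {ι : Type} [Fintype ι] (a ζ : ι → ℂ) (h : ∀ z : ℂ, ex a ζ z = 0) (W : ℂ → ℂ) :
    ∑ i, a i * W (ζ i) = 0 := by
  rw [← g2_sum a ζ W]
  refine Finset.sum_eq_zero fun ω _ => ?_
  rw [coeff_zero a ζ h ω, zero_mul]

end H12G
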