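import Pool.Agent.Lib.H12G.Defs
import Pool.Agent.Lib.H12G.G1
import Pool.Agent.Lib.H12G.G2

/-! # H12G, chunk G10 (M): complex exponential sums, sufficiency, part 2 -/

namespace H12G

open ComplexConjugate

variable {ι ι' : Type} [Fintype ι] [Fintype ι'] {u v : ℂ} {c ζ : ι → ℂ} {d ξ : ι' → ℂ}

theorem g10_term {θ φ x y : ℂ} (hy : Gam u v (y - φ)) (m n : ℤ) :
    Complex.exp (x * (m * u + n * v) + conj (y * (m * u + n * v))) =
      Complex.exp (θ * (m * u + n * v)) * conj (Complex.exp (φ * (m * u + n * v))) *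
        Complex.exp ((x - θ + (y - φ)) * (m * u + n * v)) := by
  have h1 := exp_gam_conj hy m n
  obtain ⟨l, hl⟩ : ∃ l : ℂ, l = m * u + n * v := ⟨_, rfl⟩
  rw [← hl] at h1 ⊢
  have h2 : x * l = θ * l + (x - θ) * l := by ring
  have h3 : y * l = φ * l + (y - φ) * l := by ring
  have h4 : (x - θ + (y - φ)) * l = (x - θ) * l + (y - φ) * l := by ring
  rw [Complex.exp_add, Complex.exp_conj, h4, h2, h3, Complex.exp_add, Complex.exp_add, Complex.exp_add, map_mul, h1]
  ring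

open Classical in
theorem g10_mul (c : ι → ℂ) (ζ : ι → ℂ) (θ φ z : ℂ) :
    cl u v c ζ θ z * cl u v (fun i => conj (c i)) ζ φ z =
      ∑ p : ι × ι, (if Gam u v (ζ p.1 - θ) ∧ Gam u v (ζ p.2 - φ) then c p.1 * conj (c p.2) else 0) *
        Complex.exp ((ζ p.1 - θ + (ζ p.2 - φ)) * z) := by
  unfold cl
  rw [Finset.sum_mul_sum, Fintype.sum_prod_type]
  refine Finset.sum_congr rfl fun i _ => Finset.sum_congr rfl fun j _ => ?_
  dsimp only
  by_cases h1 : Gam u v (ζ i - θ)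
  · by_cases h2 : Gam u v (ζ j - φ)
    · rw [if_pos h1, if_pos h2, if_pos ⟨h1, h2⟩, add_mul, Complex.exp_add]
      ring
    · have h3 : ¬ (Gam u v (ζ i - θ) ∧ Gam u v (ζ j - φ)) := fun h => h2 h.2
      rw [if_neg h2, if_neg h3, mul_zero, zero_mul]
  · have h3 : ¬ (Gam u v (ζ i - θ) ∧ Gam u v (ζ j - φ)) := fun h => h1 h.1
    rw [if_neg h1, if_neg h3, zero_mul, zero_mul]

/-- The equivalence relation `x - y ∈ Γ`. -/
def g10_s (u v : ℂ) : Setoid ℂ where
  r x y := Gam u v (x - y)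
  iseqv := ⟨fun x => by rw [sub_self]; exact gam_zero u v,
    fun {x y} h => by have h1 := gam_neg h; rwa [neg_sub] at h1,
    fun {x y z} h1 h2 => by have h3 := gam_add h1 h2; rwa [sub_add_sub_cancel] at h3⟩

/-- The representative of a class. -/
noncomputable def g10_r (u v x : ℂ) : ℂ := (Quotient.mk (g10_s u v) x).out

theorem g10_r_gam (u v x : ℂ) : Gam u v (x - g10_r u v x) := by
  have h : Gam u v (g10_r u v x - x) := Quotient.mk_out (s := g10_s u v) x
  have h1 := gam_neg h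
  rwa [neg_sub] at h1

theorem g10_r_eq {u v x y : ℂ} (h : Gam u v (x - y)) : g10_r u v x = g10_r u v y := by
  have h1 : Quotient.mk (g10_s u v) x = Quotient.mk (g10_s u v) y := Quotient.sound (s := g10_s u v) h
  unfold g10_r
  rw [h1]

theorem g10_r_idem (u v x : ℂ) : g10_r u v (g10_r u v x) = g10_r u v x :=
  (g10_r_eq (g10_r_gam u v x)).symm

open Classical in
theorem g10_one {T : Finset ℂ} (hT : ∀ θ ∈ T, g10_r u v θ = θ) {x : ℂ} (hx : g10_r u v x ∈ T) :
    ∑ θ ∈ T, (if Gam u v (x - θ) then (1 : ℂ) else 0) = 1 := by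
  rw [Finset.sum_eq_single (g10_r u v x)]
  · rw [if_pos (g10_r_gam u v x)]
  · intro θ hθ hne
    rw [if_neg]
    intro h
    apply hne
    rw [g10_r_eq h, hT θ hθ]
  · intro h
    exact absurd hx h

open Classical in
theorem g10_sum {T : Finset ℂ} (hT : ∀ θ ∈ T, g10_r u v θ = θ) (ζ : ι → ℂ) (hζ : ∀ i, g10_r u v (ζ i) ∈ T)
    (X : ι → ι → ℂ) :
    ∑ θ ∈ T, ∑ φ ∈ T, ∑ i, ∑ j, (if Gam u v (ζ i - θ) ∧ Gam u v (ζ j - φ) then X i j else 0) = ∑ i, ∑ j, X i j := by
  have h1 : ∀ θ ∈ T, ∑ φ ∈ T, ∑ i, ∑ j, (if Gam u v (ζ i - θ) ∧ Gam u v (ζ j - φ) then X i j else 0) =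
      ∑ i, ∑ j, (if Gam u v (ζ i - θ) then (1 : ℂ) else 0) * X i j := by
    intro θ _
    rw [Finset.sum_comm]
    refine Finset.sum_congr rfl fun i _ => ?_
    rw [Finset.sum_comm]
    refine Finset.sum_congr rfl fun j _ => ?_
    have h2 : ∀ φ ∈ T, (if Gam u v (ζ i - θ) ∧ Gam u v (ζ j - φ) then X i j else 0) =
        (if Gam u v (ζ j - φ) then (1 : ℂ) else 0) * ((if Gam u v (ζ i - θ) then (1 : ℂ) else 0) * X i j) := by
      intro φ _
      by_cases h3 : Gam u v (ζ i - θ)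
      · by_cases h4 : Gam u v (ζ j - φ)
        · rw [if_pos h3, if_pos h4, if_pos ⟨h3, h4⟩]
          ring
        · rw [if_neg h4, if_neg fun h => h4 h.2, zero_mul]
      · rw [if_neg h3, if_neg fun h => h3 h.1, zero_mul, mul_zero]
    rw [Finset.sum_congr rfl h2, ← Finset.sum_mul, g10_one hT (hζ j), one_mul]
  rw [Finset.sum_congr rfl h1, Finset.sum_comm]
  refine Finset.sum_congr rfl fun i _ => ?_
  rw [Finset.sum_comm]
  refine Finset.sum_congr rfl fun j _ => ?_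
  rw [← Finset.sum_mul, g10_one hT (hζ i), one_mul]

theorem g10_norm (c ζ : ι → ℂ) (l : ℂ) :
    ((‖ex c ζ l‖ ^ 2 : ℝ) : ℂ) = ∑ i, ∑ j, c i * conj (c j) * Complex.exp (ζ i * l + conj (ζ j * l)) := by
  rw [← Complex.normSq_eq_norm_sq, ← Complex.mul_conj]
  unfold ex
  rw [map_sum, Finset.sum_mul_sum]
  refine Finset.sum_congr rfl fun i _ => Finset.sum_congr rfl fun j _ => ?_
  rw [map_mul, Complex.exp_add, Complex.exp_conj]
  ring

/-- (G10a, S/M) PROOF. Fix `θ`, `φ`. By `w_one` (family on `(ι × ι) ⊕ (ι' × ι')`, exponents `ζ i - θ + ζ j - φ`, the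
coefficients zero unless both classes match) the identity `hcl` gives
`∑_{i ∈ θ, j ∈ φ} c i conj (c j) W (ζ i - θ + ζ j - φ) = (the same for d)` for every `W`. For `ζ i = θ + μ`, `ζ j = φ + μ'`
with `Gam μ`, `Gam μ'`: `exp (ζ i l + conj (ζ j l)) = exp (θ l + conj (φ l)) exp ((μ + μ') l)` (`exp_gam_conj`), a
function of `μ + μ'`. -/
theorem class_sum (hcl : ∀ θ φ z, cl u v c ζ θ z * cl u v (fun i => conj (c i)) ζ φ z =
      cl u v d ξ θ z * cl u v (fun i => conj (d i)) ξ φ z) (θ φ : ℂ) (m n : ℤ) :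
    (∑ i, ∑ j, open Classical in if Gam u v (ζ i - θ) ∧ Gam u v (ζ j - φ) then
      c i * conj (c j) * Complex.exp (ζ i * (m * u + n * v) + conj (ζ j * (m * u + n * v))) else 0) =
    ∑ i, ∑ j, open Classical in if Gam u v (ξ i - θ) ∧ Gam u v (ξ j - φ) then
      d i * conj (d j) * Complex.exp (ξ i * (m * u + n * v) + conj (ξ j * (m * u + n * v))) else 0 := by
  classical
  obtain ⟨l, hl⟩ : ∃ l : ℂ, l = m * u + n * v := ⟨_, rfl⟩
  have key := w_one
    (Sum.elim (fun p : ι × ι => if Gam u v (ζ p.1 - θ) ∧ Gam u v (ζ p.2 - φ) then c p.1 * conj (c p.2) else 0)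
      (fun q : ι' × ι' => -(if Gam u v (ξ q.1 - θ) ∧ Gam u v (ξ q.2 - φ) then d q.1 * conj (d q.2) else 0)))
    (Sum.elim (fun p : ι × ι => ζ p.1 - θ + (ζ p.2 - φ)) (fun q : ι' × ι' => ξ q.1 - θ + (ξ q.2 - φ)))
    (by
      intro z
      unfold ex
      rw [Fintype.sum_sum_type]
      simp only [Sum.elim_inl, Sum.elim_inr, neg_mul, Finset.sum_neg_distrib]
      rw [← g10_mul, ← g10_mul, hcl θ φ z, add_neg_cancel])
    (fun κ => Complex.exp (θ * l) * conj (Complex.exp (φ * l)) * Complex.exp (κ * l))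
  rw [Fintype.sum_sum_type] at key
  simp only [Sum.elim_inl, Sum.elim_inr, neg_mul, Finset.sum_neg_distrib] at key
  rw [add_neg_eq_zero, Fintype.sum_prod_type, Fintype.sum_prod_type] at key
  refine Eq.trans ?_ (key.trans ?_)
  · refine Finset.sum_congr rfl fun i _ => Finset.sum_congr rfl fun j _ => ?_
    by_cases h : Gam u v (ζ i - θ) ∧ Gam u v (ζ j - φ)
    · rw [if_pos h, if_pos h, g10_term (θ := θ) h.2 m n, ← hl]
    · rw [if_neg h, if_neg h, zero_mul]
  · refine Finset.sum_congr rfl fun i _ => Finset.sum_congr rfl fun j _ => ?_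
    by_cases h : Gam u v (ξ i - θ) ∧ Gam u v (ξ j - φ)
    · rw [if_pos h, if_pos h, g10_term (θ := θ) h.2 m n, ← hl]
    · rw [if_neg h, if_neg h, zero_mul]

/-- (G10b, M) PROOF. Choose a representative `r x` of every class of `ℂ / Γ` (`Gam u v (x - y)` is an equivalence
relation; `Quotient.out`): `Gam u v (x - r x)`, and `r x = r y` if and only if `Gam u v (x - y)`. Let `T` be the finite
set of all `r (ζ i)`, `r (ξ j)`. `‖ex c ζ l‖ ^ 2 = ∑ i, ∑ j, c i conj (c j) exp (ζ i l + conj (ζ j l))` is the sum over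
`θ, φ ∈ T` of the left sides of `class_sum`. -/
theorem norm_eq_of_class (hcl : ∀ θ φ z, cl u v c ζ θ z * cl u v (fun i => conj (c i)) ζ φ z =
      cl u v d ξ θ z * cl u v (fun i => conj (d i)) ξ φ z) (m n : ℤ) :
    ‖ex c ζ (m * u + n * v)‖ = ‖ex d ξ (m * u + n * v)‖ := by
  classical
  obtain ⟨T, hTd⟩ : ∃ T : Finset ℂ, T = Finset.univ.image (fun i => g10_r u v (ζ i)) ∪
    Finset.univ.image (fun i => g10_r u v (ξ i)) := ⟨_, rfl⟩
  have hT : ∀ θ ∈ T, g10_r u v θ = θ := by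
    intro θ hθ
    rw [hTd, Finset.mem_union, Finset.mem_image, Finset.mem_image] at hθ
    rcases hθ with ⟨i, _, rfl⟩ | ⟨i, _, rfl⟩
    · exact g10_r_idem u v _
    · exact g10_r_idem u v _
  have hζ : ∀ i, g10_r u v (ζ i) ∈ T := by
    intro i
    rw [hTd]
    exact Finset.mem_union_left _ (Finset.mem_image_of_mem _ (Finset.mem_univ i))
  have hξ : ∀ i, g10_r u v (ξ i) ∈ T := by
    intro i
    rw [hTd]
    exact Finset.mem_union_right _ (Finset.mem_image_of_mem _ (Finset.mem_univ i))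
  have h1 := g10_norm c ζ (m * u + n * v)
  have h2 := g10_norm d ξ (m * u + n * v)
  have h3 := g10_sum hT ζ hζ
    (fun i j => c i * conj (c j) * Complex.exp (ζ i * (m * u + n * v) + conj (ζ j * (m * u + n * v))))
  have h4 := g10_sum hT ξ hξ
    (fun i j => d i * conj (d j) * Complex.exp (ξ i * (m * u + n * v) + conj (ξ j * (m * u + n * v))))
  have h5 : ((‖ex c ζ (m * u + n * v)‖ ^ 2 : ℝ) : ℂ) = ((‖ex d ξ (m * u + n * v)‖ ^ 2 : ℝ) : ℂ) := by
    rw [h1, h2, ← h3, ← h4]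
    refine Finset.sum_congr rfl fun θ _ => Finset.sum_congr rfl fun φ _ => ?_
    exact class_sum hcl θ φ m n
  have h6 : ‖ex c ζ (m * u + n * v)‖ ^ 2 = ‖ex d ξ (m * u + n * v)‖ ^ 2 := Complex.ofReal_injective h5
  exact (pow_left_inj₀ (norm_nonneg _) (norm_nonneg _) two_ne_zero).1 h6

end H12G
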