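import Pool.Agent.Lib.H12G.Defs

/-! # H12G, chunk G11 (M): finite Gabor sums -/

namespace H12G

open MeasureTheory ComplexConjugate H12S

/-- the exponent of one Gabor atom times the kernel -/
theorem g11_term (s w : ℝ) (z : ℂ) (t : ℝ) :
    Complex.exp (-Real.pi * (t - s) ^ 2) * Complex.exp (2 * Real.pi * Complex.I * w * t) *
      Complex.exp (-Real.pi * t ^ 2 + 2 * Real.pi * t * z) =
    Complex.exp ((-2 * Real.pi : ℂ) * t ^ 2 +
      (2 * Real.pi * s + 2 * Real.pi * Complex.I * w + 2 * Real.pi * z) * t +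
      (-Real.pi * s ^ 2)) := by
  rw [← Complex.exp_add, ← Complex.exp_add]
  congr 1
  ring

theorem g11_re : ((-2 * Real.pi : ℂ)).re < 0 := by
  have h : (-2 * Real.pi : ℂ) = ((-2 * Real.pi : ℝ) : ℂ) := by push_cast; ring
  rw [h, Complex.ofReal_re]
  have := Real.pi_pos
  linarith

theorem g11_integrable (s w : ℝ) (z : ℂ) :
    Integrable (fun t : ℝ => Complex.exp (-Real.pi * (t - s) ^ 2) *
      Complex.exp (2 * Real.pi * Complex.I * w * t) *
      Complex.exp (-Real.pi * t ^ 2 + 2 * Real.pi * t * z)) := by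
  have h : (fun t : ℝ => Complex.exp (-Real.pi * (t - s) ^ 2) *
      Complex.exp (2 * Real.pi * Complex.I * w * t) *
      Complex.exp (-Real.pi * t ^ 2 + 2 * Real.pi * t * z)) = fun t : ℝ =>
      Complex.exp ((-2 * Real.pi : ℂ) * t ^ 2 +
      (2 * Real.pi * s + 2 * Real.pi * Complex.I * w + 2 * Real.pi * z) * t +
      (-Real.pi * s ^ 2)) := by
    funext t
    exact g11_term s w z t
  rw [h]
  exact integrable_cexp_quadratic' g11_re _ _

theorem g11_integral (s w : ℝ) (z : ℂ) :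
    (∫ t : ℝ, Complex.exp (-Real.pi * (t - s) ^ 2) *
      Complex.exp (2 * Real.pi * Complex.I * w * t) *
      Complex.exp (-Real.pi * t ^ 2 + 2 * Real.pi * t * z)) =
    Complex.exp (Real.pi * z ^ 2 / 2) *
      (((Real.pi / (2 * Real.pi : ℂ)) ^ (1 / 2 : ℂ) *
        Complex.exp (-Real.pi * s ^ 2 + Real.pi * (s + Complex.I * w) ^ 2 / 2)) *
      Complex.exp ((Real.pi * (s + Complex.I * w)) * z)) := by
  have h : (fun t : ℝ => Complex.exp (-Real.pi * (t - s) ^ 2) *
      Complex.exp (2 * Real.pi * Complex.I * w * t) *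
      Complex.exp (-Real.pi * t ^ 2 + 2 * Real.pi * t * z)) = fun t : ℝ =>
      Complex.exp ((-2 * Real.pi : ℂ) * t ^ 2 +
      (2 * Real.pi * s + 2 * Real.pi * Complex.I * w + 2 * Real.pi * z) * t +
      (-Real.pi * s ^ 2)) := by
    funext t
    exact g11_term s w z t
  have hpi : (Real.pi : ℂ) ≠ 0 := Complex.ofReal_ne_zero.mpr Real.pi_ne_zero
  rw [h, integral_cexp_quadratic g11_re]
  have e1 : (Real.pi / -(-2 * Real.pi) : ℂ) = Real.pi / (2 * Real.pi) := by
    congr 1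
    ring
  rw [e1]
  have e2 : (-Real.pi * s ^ 2 : ℂ) - (2 * Real.pi * s + 2 * Real.pi * Complex.I * w +
      2 * Real.pi * z) ^ 2 / (4 * (-2 * Real.pi)) =
      Real.pi * z ^ 2 / 2 + ((-Real.pi * s ^ 2 + Real.pi * (s + Complex.I * w) ^ 2 / 2) +
        (Real.pi * (s + Complex.I * w)) * z) := by
    field_simp
    ring
  rw [e2, Complex.exp_add, Complex.exp_add]
  ring

/-- (G11a, M) PROOF. Gaussian integral (`integral_cexp_quadratic`): `∫ exp (-π (t - s) ^ 2 + 2 π i w t - π t ^ 2 + 2 π t z) dt =`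
`(1/2) ^ (1/2) exp (-π s ^ 2) exp ((2 π s + 2 π i w + 2 π z) ^ 2 / (8 π))`, and the square is
`4 π ^ 2 (s + i w) ^ 2 + 8 π ^ 2 (s + i w) z + 4 π ^ 2 z ^ 2`: exponents `π (s + i w)`. Integrability of every term
(`integrable_cexp_quadratic`) for the sum. -/
theorem Psi_gaborSum {f : ℝ → ℂ} (hf : GaborSum f) :
    ∃ (n : ℕ) (c ζ : Fin n → ℂ), ∀ z, Psi f z = Complex.exp (Real.pi * z ^ 2 / 2) * ex c ζ z := by
  obtain ⟨n, c, s, w, hfe⟩ := hf
  refine ⟨n, fun i => c i * ((Real.pi / (2 * Real.pi : ℂ)) ^ (1 / 2 : ℂ) *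
        Complex.exp (-Real.pi * s i ^ 2 + Real.pi * (s i + Complex.I * w i) ^ 2 / 2)),
    fun i => Real.pi * (s i + Complex.I * w i), fun z => ?_⟩
  unfold Psi ex
  have h1 : (fun t : ℝ => f t * Complex.exp (-Real.pi * t ^ 2 + 2 * Real.pi * t * z)) =
      fun t : ℝ => ∑ i, c i * (Complex.exp (-Real.pi * (t - s i) ^ 2) *
      Complex.exp (2 * Real.pi * Complex.I * w i * t) *
      Complex.exp (-Real.pi * t ^ 2 + 2 * Real.pi * t * z)) := by
    funext t
    rw [hfe t, Finset.sum_mul]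
    refine Finset.sum_congr rfl fun i _ => ?_
    ring
  rw [h1, integral_finsetSum _ (fun i _ => (g11_integrable (s i) (w i) z).const_mul (c i)),
    Finset.mul_sum]
  refine Finset.sum_congr rfl fun i _ => ?_
  rw [integral_const_mul, g11_integral]
  ring

end H12G
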