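import Pool.Agent.Lib.H12G.Defs

/-! # H12G, chunk G11B (S/M): finite Gabor sums, simple facts -/

namespace H12G

open MeasureTheory ComplexConjugate H12S

theorem g11b_term (c : ℂ) (s w : ℝ) :
    Continuous (fun t : ℝ => c * Complex.exp (-Real.pi * (t - s) ^ 2) *
      Complex.exp (2 * Real.pi * Complex.I * w * t)) ∧
    MemLp (fun t : ℝ => c * Complex.exp (-Real.pi * (t - s) ^ 2) *
      Complex.exp (2 * Real.pi * Complex.I * w * t)) 2 volume := by
  have hc : Continuous (fun t : ℝ => c * Complex.exp (-Real.pi * (t - s) ^ 2) *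
      Complex.exp (2 * Real.pi * Complex.I * w * t)) := by fun_prop
  refine ⟨hc, (memLp_two_iff_integrable_sq_norm hc.aestronglyMeasurable).2 ?_⟩
  have h1 : (fun t : ℝ => ‖c * Complex.exp (-Real.pi * (t - s) ^ 2) *
      Complex.exp (2 * Real.pi * Complex.I * w * t)‖ ^ 2) =
      fun t : ℝ => ‖c‖ ^ 2 * Real.exp (-(2 * Real.pi) * (t - s) ^ 2) := by
    funext t
    rw [norm_mul, norm_mul, Complex.norm_exp, Complex.norm_exp]
    have h2 : (-(Real.pi : ℂ) * ((t : ℂ) - s) ^ 2).re = -Real.pi * (t - s) ^ 2 := by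
      have : (-(Real.pi : ℂ) * ((t : ℂ) - s) ^ 2) = ((-Real.pi * (t - s) ^ 2 : ℝ) : ℂ) := by
        push_cast
        ring
      rw [this, Complex.ofReal_re]
    have h3 : (2 * (Real.pi : ℂ) * Complex.I * w * t).re = 0 := by
      have : (2 * (Real.pi : ℂ) * Complex.I * w * t) = ((2 * Real.pi * w * t : ℝ) : ℂ) * Complex.I := by
        push_cast
        ring
      rw [this, Complex.re_ofReal_mul, Complex.I_re, mul_zero]
    rw [h2, h3, Real.exp_zero, mul_one, mul_pow, ← Real.exp_nat_mul]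
    congr 2
    push_cast
    ring
  rw [h1]
  have h4 := (integrable_exp_neg_mul_sq (b := 2 * Real.pi) (by positivity)).comp_sub_right s
  exact h4.const_mul _

/-- (G11b, S/M) PROOF. A finite sum of continuous functions in `L²` (bounded by a Gaussian). -/
theorem gaborSum_memLp {f : ℝ → ℂ} (hf : GaborSum f) : Continuous f ∧ MemLp f 2 volume := by
  obtain ⟨n, c, s, w, h⟩ := hf
  have h1 : f = fun t : ℝ => ∑ i, c i * Complex.exp (-Real.pi * (t - s i) ^ 2) *
      Complex.exp (2 * Real.pi * Complex.I * w i * t) := funext h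
  rw [h1]
  exact ⟨continuous_finsetSum _ fun i _ => (g11b_term (c i) (s i) (w i)).1,
    memLp_finsetSum _ fun i _ => (g11b_term (c i) (s i) (w i)).2⟩

/-- (G11c, S) PROOF. `integral_conj`, `f` is real. -/
theorem Psi_conj (f : ℝ → ℝ) (z : ℂ) : Psi (toC f) (conj z) = conj (Psi (toC f) z) := by
  unfold Psi
  rw [← integral_conj]
  refine integral_congr_ae (Filter.Eventually.of_forall fun t => ?_)
  simp only [toC]
  rw [map_mul, ← Complex.exp_conj, map_add, map_mul, map_mul, map_mul, map_mul, map_neg, map_pow,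
    Complex.conj_ofReal, Complex.conj_ofReal, Complex.conj_ofReal, map_ofNat]

/-- (G11d, S) PROOF. `κ` and `conj κ` in `Γ`: `Im (κ u)`, `Im (conj κ * u) ∈ π ℤ`; the difference is `2 κ.im * a` for
`u = ⟨a, -c⟩`, similarly `2 κ.im * b ∈ π ℤ`. If `κ.im ≠ 0`, then `a l - b k = 0` for the two integers, so `k = l = 0`
by `IndepQ`, and `a = b = 0`, against `hdet`. -/
theorem gam_real {a b c d : ℝ} (hdet : a * d - b * c ≠ 0) (hind : IndepQ a b) {κ : ℂ}
    (h₁ : Gam ⟨a, -c⟩ ⟨b, -d⟩ κ) (h₂ : Gam ⟨a, -c⟩ ⟨b, -d⟩ (conj κ)) : κ.im = 0 := by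
  obtain ⟨⟨k₁, h1⟩, ⟨l₁, h2⟩⟩ := h₁
  obtain ⟨⟨k₂, h3⟩, ⟨l₂, h4⟩⟩ := h₂
  simp only [Complex.mul_im, Complex.conj_re, Complex.conj_im] at h1 h2 h3 h4
  by_contra hne
  have e1 : 2 * κ.im * a = Real.pi * ((k₁ - k₂ : ℤ) : ℝ) := by
    push_cast
    linear_combination h1 - h3
  have e2 : 2 * κ.im * b = Real.pi * ((l₁ - l₂ : ℤ) : ℝ) := by
    push_cast
    linear_combination h2 - h4
  have e3 : a * ((l₁ - l₂ : ℤ) : ℝ) + b * ((-(k₁ - k₂) : ℤ) : ℝ) = 0 := by
    have h5 : 2 * κ.im * (a * ((l₁ - l₂ : ℤ) : ℝ) + b * ((-(k₁ - k₂) : ℤ) : ℝ)) = 0 := by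
      rw [Int.cast_neg]
      linear_combination ((l₁ - l₂ : ℤ) : ℝ) * e1 - ((k₁ - k₂ : ℤ) : ℝ) * e2
    exact (mul_eq_zero.1 h5).resolve_left (mul_ne_zero two_ne_zero hne)
  obtain ⟨h6, h7⟩ := hind _ _ e3
  rw [neg_eq_zero] at h7
  rw [h7, Int.cast_zero, mul_zero] at e1
  rw [h6, Int.cast_zero, mul_zero] at e2
  have ha : a = 0 := (mul_eq_zero.1 e1).resolve_left (mul_ne_zero two_ne_zero hne)
  have hb : b = 0 := (mul_eq_zero.1 e2).resolve_left (mul_ne_zero two_ne_zero hne)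
  apply hdet
  rw [ha, hb]
  ring

/-- (G11e, S) PROOF. `cos (η t) + s sin (η t)` is a combination of `exp (± i η t) = exp (2 π i w t)`,
`w = ± η / (2 π)`; both shifts `0`. -/
theorem gaborSum_trig (η s : ℝ) : GaborSum (toC (trig η s)) := by
  have hpi : (Real.pi : ℂ) ≠ 0 := by exact_mod_cast Real.pi_ne_zero
  refine ⟨2, ![(1 - Complex.I * s) / 2, (1 + Complex.I * s) / 2], ![0, 0],
    ![η / (2 * Real.pi), -(η / (2 * Real.pi))], fun t => ?_⟩
  rw [Fin.sum_univ_two]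
  simp only [Matrix.cons_val_zero, Matrix.cons_val_one, toC, trig]
  push_cast
  have e1 : 2 * (Real.pi : ℂ) * Complex.I * (η / (2 * Real.pi)) * t = η * t * Complex.I := by
    field_simp
  have e2 : 2 * (Real.pi : ℂ) * Complex.I * (-(η / (2 * Real.pi))) * t = -(η * t) * Complex.I := by
    field_simp
  rw [e1, e2, Complex.cos, Complex.sin, sub_zero]
  ring

end H12G
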