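import Pool.Agent.Lib.H12G.Defs
import Pool.Agent.Lib.H12G.G1

/-! # H12G, chunk G3 (M): linear independence of the characters of the lattice -/

namespace H12G

open ComplexConjugate

/-- (G3a, S/M) PROOF. `δ l + conj (ε l) ∈ 2 π i ℤ` for `l = u`, `l = v` (`Complex.exp_eq_one_iff`). Real parts:
`Re ((δ + ε) l) = 0` for `l = u, v` (`Re (conj w) = Re w`), so `δ + ε = 0` (determinant). Then
`δ l - conj (δ l) = 2 i Im (δ l) ∈ 2 π i ℤ`. -/
theorem gam_of_char {u v δ ε : ℂ} (hdet : u.re * v.im - u.im * v.re ≠ 0)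
    (hu : Complex.exp (δ * u + conj (ε * u)) = 1) (hv : Complex.exp (δ * v + conj (ε * v)) = 1) :
    ε = -δ ∧ Gam u v δ := by
  obtain ⟨n, hn⟩ := Complex.exp_eq_one_iff.mp hu
  obtain ⟨m, hm⟩ := Complex.exp_eq_one_iff.mp hv
  have hn1 := congrArg Complex.re hn
  have hn2 := congrArg Complex.im hn
  have hm1 := congrArg Complex.re hm
  have hm2 := congrArg Complex.im hm
  simp only [Complex.add_re, Complex.add_im, Complex.conj_re, Complex.conj_im, Complex.mul_re,
    Complex.mul_im, Complex.intCast_re, Complex.intCast_im, Complex.ofReal_re, Complex.ofReal_im,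
    Complex.I_re, Complex.I_im, Complex.re_ofNat, Complex.im_ofNat] at hn1 hn2 hm1 hm2
  have hre : (δ.re + ε.re) * (u.re * v.im - u.im * v.re) = 0 := by
    linear_combination v.im * hn1 - u.im * hm1
  have him : (δ.im + ε.im) * (u.re * v.im - u.im * v.re) = 0 := by
    linear_combination v.re * hn1 - u.re * hm1
  have h1 : δ.re + ε.re = 0 := by
    rcases mul_eq_zero.mp hre with h | h
    · exact h
    · exact absurd h hdet
  have h2 : δ.im + ε.im = 0 := by
    rcases mul_eq_zero.mp him with h | h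
    · exact h
    · exact absurd h hdet
  have he : ε = -δ := by
    apply Complex.ext
    · rw [Complex.neg_re]; linarith
    · rw [Complex.neg_im]; linarith
  have hr : ε.re = -δ.re := by linarith
  have hi : ε.im = -δ.im := by linarith
  refine ⟨he, ⟨n, ?_⟩, ⟨m, ?_⟩⟩
  · rw [Complex.mul_im]
    rw [hr, hi] at hn2
    linarith
  · rw [Complex.mul_im]
    rw [hr, hi] at hm2
    linarith

/-- The character of `Multiplicative (ℤ × ℤ)` given by `x`, `y`. -/
noncomputable def g3_chi (u v x y : ℂ) : Multiplicative (ℤ × ℤ) →* ℂ where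
  toFun g := Complex.exp (x * ((g.toAdd.1 : ℂ) * u + (g.toAdd.2 : ℂ) * v) +
    conj (y * ((g.toAdd.1 : ℂ) * u + (g.toAdd.2 : ℂ) * v)))
  map_one' := by simp
  map_mul' g h := by
    rw [← Complex.exp_add]
    congr 1
    simp only [toAdd_mul, Prod.fst_add, Prod.snd_add, Int.cast_add, map_mul, map_add]
    ring

theorem g3_chi_apply (u v x y : ℂ) (m n : ℤ) :
    g3_chi u v x y (Multiplicative.ofAdd (m, n)) =
      Complex.exp (x * (m * u + n * v) + conj (y * (m * u + n * v))) := rfl

theorem g3_chi_eq {u v x y x' y' : ℂ} (hdet : u.re * v.im - u.im * v.re ≠ 0)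
    (h : g3_chi u v x y = g3_chi u v x' y') (W : ℂ → ℂ → ℂ)
    (hW : ∀ x y κ : ℂ, Gam u v κ → W (x + κ) (y - κ) = W x y) : W x y = W x' y' := by
  have hone : ∀ a b : ℂ, Complex.exp a = Complex.exp b → Complex.exp (a - b) = 1 := by
    intro a b hab
    rw [Complex.exp_sub, hab, div_self (Complex.exp_ne_zero b)]
  have h1 : g3_chi u v x y (Multiplicative.ofAdd (1, 0)) =
      g3_chi u v x' y' (Multiplicative.ofAdd (1, 0)) := by rw [h]
  have h2 : g3_chi u v x y (Multiplicative.ofAdd (0, 1)) =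
      g3_chi u v x' y' (Multiplicative.ofAdd (0, 1)) := by rw [h]
  rw [g3_chi_apply, g3_chi_apply] at h1 h2
  have h1' := hone _ _ h1
  have h2' := hone _ _ h2
  obtain ⟨he, hg⟩ := gam_of_char (u := u) (v := v) (δ := x - x') (ε := y - y') hdet (by
    rw [← h1']
    congr 1
    simp only [map_mul, map_sub, map_add, Int.cast_one, Int.cast_zero, map_one, map_zero]
    ring) (by
    rw [← h2']
    congr 1
    simp only [map_mul, map_sub, map_add, Int.cast_one, Int.cast_zero, map_one, map_zero]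
    ring)
  have h3 := hW x' y' _ hg
  have e1 : x' + (x - x') = x := by ring
  have e2 : y' - (x - x') = y := by linear_combination -he
  rw [e1, e2] at h3
  exact h3

/-- (G3b, M) PROOF. The functions `χ_i (m, n) = exp (ζ i * (m u + n v) + conj (η i * (m u + n v)))` are characters of
`Multiplicative (ℤ × ℤ)`; different characters are linearly independent (`linearIndependent_monoidHom`), so
`∑_{i : χ_i = χ} a i = 0` for every character `χ`. If `χ_i = χ_j`, then `gam_of_char` with `δ = ζ i - ζ j`,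
`ε = η i - η j` gives `ζ i = ζ j + δ`, `η i = η j - δ`, `Gam u v δ`, so `W (ζ i) (η i) = W (ζ j) (η j)`: on the
indices with `χ_i = χ` the factor `W` is constant. Sum over the characters. -/
theorem w_two {u v : ℂ} (hdet : u.re * v.im - u.im * v.re ≠ 0) {ι : Type} [Fintype ι]
    (a ζ η : ι → ℂ)
    (h : ∀ m n : ℤ, ∑ i, a i * Complex.exp (ζ i * (m * u + n * v) +
      conj (η i * (m * u + n * v))) = 0)
    (W : ℂ → ℂ → ℂ) (hW : ∀ x y κ : ℂ, Gam u v κ → W (x + κ) (y - κ) = W x y) :
    ∑ i, a i * W (ζ i) (η i) = 0 := by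
  classical
  let χ : ι → (Multiplicative (ℤ × ℤ) →* ℂ) := fun i => g3_chi u v (ζ i) (η i)
  have hli := linearIndependent_monoidHom (Multiplicative (ℤ × ℤ)) ℂ
  rw [linearIndependent_iff'] at hli
  have hsum : ∑ ψ ∈ Finset.univ.image χ, (∑ i with χ i = ψ, a i) •
      (fun f : Multiplicative (ℤ × ℤ) →* ℂ => (f : Multiplicative (ℤ × ℤ) → ℂ)) ψ = 0 := by
    have h1 : ∀ ψ ∈ Finset.univ.image χ, (∑ i with χ i = ψ, a i) •
        (fun f : Multiplicative (ℤ × ℤ) →* ℂ => (f : Multiplicative (ℤ × ℤ) → ℂ)) ψ =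
        ∑ i with χ i = ψ, a i • (χ i : Multiplicative (ℤ × ℤ) → ℂ) := by
      intro ψ _
      rw [Finset.sum_smul]
      refine Finset.sum_congr rfl fun i hi => ?_
      rw [(Finset.mem_filter.mp hi).2]
    rw [Finset.sum_congr rfl h1, Finset.sum_fiberwise_of_maps_to
      (fun i _ => Finset.mem_image_of_mem χ (Finset.mem_univ i))]
    funext g
    rw [Finset.sum_apply]
    have h2 := h g.toAdd.1 g.toAdd.2
    simp only [Pi.smul_apply, smul_eq_mul, Pi.zero_apply]
    exact h2
  have hz := hli _ _ hsum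
  have hsplit : ∑ i, a i * W (ζ i) (η i) =
      ∑ ψ ∈ Finset.univ.image χ, ∑ i with χ i = ψ, a i * W (ζ i) (η i) :=
    (Finset.sum_fiberwise_of_maps_to
      (fun i _ => Finset.mem_image_of_mem χ (Finset.mem_univ i)) _).symm
  rw [hsplit]
  refine Finset.sum_eq_zero fun ψ hψ => ?_
  obtain ⟨i₀, _, hi₀⟩ := Finset.mem_image.mp hψ
  have h3 : ∑ i with χ i = ψ, a i * W (ζ i) (η i) =
      ∑ i with χ i = ψ, a i * W (ζ i₀) (η i₀) := by
    refine Finset.sum_congr rfl fun i hi => ?_
    rw [g3_chi_eq hdet (((Finset.mem_filter.mp hi).2.trans hi₀.symm : χ i = χ i₀)) W hW]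
  rw [h3, ← Finset.sum_mul, hz ψ hψ, zero_mul]

end H12G
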