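import Pool.Agent.Lib.H12G.Defs
import Pool.Agent.Lib.H12G.G1
import Pool.Agent.Lib.H12G.G3

/-! # H12G, chunk G4 (S/M): the identities of a pair with equal moduli on the lattice -/

namespace H12G

open ComplexConjugate

variable {ι ι' : Type} [Fintype ι] [Fintype ι'] {u v : ℂ} {c ζ : ι → ℂ} {d ξ : ι' → ℂ}

theorem g4_sq {α : Type} [Fintype α] (c ζ : α → ℂ) (z : ℂ) :
    ∑ p : α × α, c p.1 * conj (c p.2) * Complex.exp (ζ p.1 * z + conj (ζ p.2 * z)) =
      ((‖ex c ζ z‖ : ℝ) : ℂ) ^ 2 := by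
  rw [← Complex.mul_conj', Fintype.sum_prod_type]
  unfold ex
  rw [map_sum, Finset.sum_mul_sum]
  refine Finset.sum_congr rfl fun i _ => Finset.sum_congr rfl fun j _ => ?_
  have e : conj (c j * Complex.exp (ζ j * z)) = conj (c j) * conj (Complex.exp (ζ j * z)) :=
    map_mul _ _ _
  rw [Complex.exp_add, Complex.exp_conj, e]
  ring

theorem g4_gam {u v κ y φ : ℂ} (h : Gam u v κ) : Gam u v (y - κ - φ) ↔ Gam u v (y - φ) := by
  constructor
  · intro h1
    have h2 := gam_add h1 h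
    have e : y - κ - φ + κ = y - φ := by ring
    rw [e] at h2
    exact h2
  · intro h1
    have h2 := gam_add h1 (gam_neg h)
    have e : y - φ + -κ = y - κ - φ := by ring
    rw [e] at h2
    exact h2

theorem g4_gam' {u v κ y φ : ℂ} (h : Gam u v κ) : Gam u v (y + κ - φ) ↔ Gam u v (y - φ) := by
  have h1 := g4_gam (y := y) (φ := φ) (gam_neg h)
  rw [sub_neg_eq_add] at h1
  exact h1

/-- (G4a, S/M) PROOF. `‖ex c ζ l‖ ^ 2 = ∑ i, ∑ j, c i * conj (c j) * exp (ζ i l + conj (ζ j l))`. `w_two` for the index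
type `(ι × ι) ⊕ (ι' × ι')` with coefficients `c i * conj (c j)` and `-(d i * conj (d j))`. -/
theorem pair_identity (hdet : u.re * v.im - u.im * v.re ≠ 0)
    (H : ∀ m n : ℤ, ‖ex c ζ (m * u + n * v)‖ = ‖ex d ξ (m * u + n * v)‖)
    (W : ℂ → ℂ → ℂ) (hW : ∀ x y κ : ℂ, Gam u v κ → W (x + κ) (y - κ) = W x y) :
    ∑ i, ∑ j, c i * conj (c j) * W (ζ i) (ζ j) = ∑ i, ∑ j, d i * conj (d j) * W (ξ i) (ξ j) := by
  have key := w_two (u := u) (v := v) hdet (ι := (ι × ι) ⊕ (ι' × ι'))
    (Sum.elim (fun p => c p.1 * conj (c p.2)) (fun p => -(d p.1 * conj (d p.2))))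
    (Sum.elim (fun p => ζ p.1) (fun p => ξ p.1)) (Sum.elim (fun p => ζ p.2) (fun p => ξ p.2))
    (by
      intro m n
      rw [Fintype.sum_sum_type]
      simp only [Sum.elim_inl, Sum.elim_inr, neg_mul]
      rw [Finset.sum_neg_distrib, g4_sq, g4_sq, H m n]
      ring) W hW
  rw [Fintype.sum_sum_type] at key
  simp only [Sum.elim_inl, Sum.elim_inr, neg_mul] at key
  rw [Finset.sum_neg_distrib, Fintype.sum_prod_type, Fintype.sum_prod_type] at key
  exact sub_eq_zero.mp ((sub_eq_add_neg _ _).trans key)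

/-- (G4b, S) PROOF. `pair_identity` with `W x y = exp ((x + y - φ) z)` if `Gam u v (y - φ)`, `0` otherwise. -/
theorem total_identity (hdet : u.re * v.im - u.im * v.re ≠ 0)
    (H : ∀ m n : ℤ, ‖ex c ζ (m * u + n * v)‖ = ‖ex d ξ (m * u + n * v)‖) (φ z : ℂ) :
    ex c ζ z * cl u v (fun i => conj (c i)) ζ φ z =
      ex d ξ z * cl u v (fun i => conj (d i)) ξ φ z := by
  classical
  have key := pair_identity hdet H (fun x y => if Gam u v (y - φ) then Complex.exp ((x + y - φ) * z) else 0) (by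
    intro x y κ hκ
    have e : x + κ + (y - κ) - φ = x + y - φ := by ring
    simp only [g4_gam hκ, e])
  have hgen : ∀ {α : Type} [Fintype α] (c ζ : α → ℂ),
      ∑ i, ∑ j, c i * conj (c j) * (if Gam u v (ζ j - φ) then Complex.exp ((ζ i + ζ j - φ) * z) else 0) =
        ex c ζ z * cl u v (fun i => conj (c i)) ζ φ z := by
    intro α _ c ζ
    unfold ex cl
    rw [Finset.sum_mul_sum]
    refine Finset.sum_congr rfl fun i _ => Finset.sum_congr rfl fun j _ => ?_
    split_ifs with hg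
    · have e : (ζ i + ζ j - φ) * z = ζ i * z + (ζ j - φ) * z := by ring
      rw [e, Complex.exp_add]
      ring
    · rw [mul_zero, mul_zero]
  rw [← hgen, ← hgen]
  exact key

/-- (G4c, S) PROOF. `pair_identity` with `W x y = exp ((x - θ + y - φ) z)` if `Gam u v (x - θ)` and
`Gam u v (y - φ)`, `0` otherwise. -/
theorem class_identity (hdet : u.re * v.im - u.im * v.re ≠ 0)
    (H : ∀ m n : ℤ, ‖ex c ζ (m * u + n * v)‖ = ‖ex d ξ (m * u + n * v)‖) (θ φ z : ℂ) :
    cl u v c ζ θ z * cl u v (fun i => conj (c i)) ζ φ z =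
      cl u v d ξ θ z * cl u v (fun i => conj (d i)) ξ φ z := by
  classical
  have key := pair_identity hdet H (fun x y => if Gam u v (x - θ) ∧ Gam u v (y - φ) then
      Complex.exp ((x - θ + (y - φ)) * z) else 0) (by
    intro x y κ hκ
    have e : x + κ - θ + (y - κ - φ) = x - θ + (y - φ) := by ring
    simp only [g4_gam hκ, g4_gam' hκ, e])
  have hgen : ∀ {α : Type} [Fintype α] (c ζ : α → ℂ),
      ∑ i, ∑ j, c i * conj (c j) * (if Gam u v (ζ i - θ) ∧ Gam u v (ζ j - φ) then
        Complex.exp ((ζ i - θ + (ζ j - φ)) * z) else 0) =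
        cl u v c ζ θ z * cl u v (fun i => conj (c i)) ζ φ z := by
    intro α _ c ζ
    unfold cl
    rw [Finset.sum_mul_sum]
    refine Finset.sum_congr rfl fun i _ => Finset.sum_congr rfl fun j _ => ?_
    by_cases h1 : Gam u v (ζ i - θ)
    · by_cases h2 : Gam u v (ζ j - φ)
      · rw [if_pos ⟨h1, h2⟩, if_pos h1, if_pos h2, add_mul, Complex.exp_add]
        ring
      · rw [if_neg (fun h => h2 h.2), if_neg h2, mul_zero, mul_zero]
    · rw [if_neg (fun h => h1 h.1), if_neg h1, mul_zero, zero_mul]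
  rw [← hgen, ← hgen]
  exact key

/-- (G4d, S) PROOF. `pair_identity` with `W x y = exp ((x + y) z)`. -/
theorem norm_identity (hdet : u.re * v.im - u.im * v.re ≠ 0)
    (H : ∀ m n : ℤ, ‖ex c ζ (m * u + n * v)‖ = ‖ex d ξ (m * u + n * v)‖) (z : ℂ) :
    ex c ζ z * ex (fun i => conj (c i)) ζ z = ex d ξ z * ex (fun i => conj (d i)) ξ z := by
  have key := pair_identity hdet H (fun x y => Complex.exp ((x + y) * z)) (by
    intro x y κ _
    have e : x + κ + (y - κ) = x + y := by ring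
    simp only [e])
  have hgen : ∀ {α : Type} [Fintype α] (c ζ : α → ℂ),
      ∑ i, ∑ j, c i * conj (c j) * Complex.exp ((ζ i + ζ j) * z) =
        ex c ζ z * ex (fun i => conj (c i)) ζ z := by
    intro α _ c ζ
    unfold ex
    rw [Finset.sum_mul_sum]
    refine Finset.sum_congr rfl fun i _ => Finset.sum_congr rfl fun j _ => ?_
    rw [add_mul, Complex.exp_add]
    ring
  rw [← hgen, ← hgen]
  exact key

end H12G
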