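import Pool.Agent.Lib.H12G.Defs
import Pool.Agent.Lib.H12G.G1
import Pool.Agent.Lib.H12G.G2

/-! # H12G, chunk G5 (S/M): operations on identities between exponential sums -/

namespace H12G

open ComplexConjugate

variable {ι ι' κ κ' : Type} [Fintype ι] [Fintype ι'] [Fintype κ] [Fintype κ']

/-- (G5a, S) PROOF. `∑ i, conj (a i) * exp (ζ i z) = conj (∑ i, a i * conj (exp (ζ i z)))`, and the last sum is `0`
by `w_one` with `W ω = conj (exp (ω z))`. -/
theorem conj_coeff {a ζ : ι → ℂ} (h : ∀ z, ex a ζ z = 0) (z : ℂ) :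
    ex (fun i => conj (a i)) ζ z = 0 := by
  have h1 := w_one a ζ h (fun ω => conj (Complex.exp (ω * z)))
  have h2 : ex (fun i => conj (a i)) ζ z = conj (∑ i, a i * conj (Complex.exp (ζ i * z))) := by
    unfold ex
    rw [map_sum]
    refine Finset.sum_congr rfl fun i _ => ?_
    rw [map_mul, Complex.conj_conj]
  rw [h2, h1, map_zero]

/-- (G5b, S) PROOF. `w_one` with `W ω = exp (conj ω * z)`. -/
theorem conj_exponent {a ζ : ι → ℂ} (h : ∀ z, ex a ζ z = 0) (z : ℂ) :
    ex a (fun i => conj (ζ i)) z = 0 := by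
  exact w_one a ζ h (fun ω => Complex.exp (conj ω * z))

/-- (G5c, S) PROOF. The family on `ι ⊕ ι` with coefficients `conj (c i)`, `-(c i)` and exponents `conj (ζ i)`, `ζ i`
has the sum `conj (ex c ζ (conj z)) - ex c ζ z = 0`; `conj_exponent`. -/
theorem real_symm {c ζ : ι → ℂ} (hC : ∀ z, ex c ζ (conj z) = conj (ex c ζ z)) (z : ℂ) :
    ex (fun i => conj (c i)) ζ z = ex c (fun i => conj (ζ i)) z := by
  have h0 : ∀ z, ex (Sum.elim (fun i => conj (c i)) (fun i => -(c i)))
      (Sum.elim (fun i => conj (ζ i)) ζ : ι ⊕ ι → ℂ) z = 0 := by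
    intro z
    unfold ex
    rw [Fintype.sum_sum_type]
    simp only [Sum.elim_inl, Sum.elim_inr, neg_mul]
    rw [Finset.sum_neg_distrib]
    have h1 := hC (conj z)
    rw [Complex.conj_conj] at h1
    have h2 : ∑ i, conj (c i) * Complex.exp (conj (ζ i) * z) = conj (ex c ζ (conj z)) := by
      unfold ex
      rw [map_sum]
      refine Finset.sum_congr rfl fun i _ => ?_
      rw [map_mul, ← Complex.exp_conj, map_mul, Complex.conj_conj]
    rw [h2, ← h1]
    unfold ex
    exact add_neg_cancel _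
  have h3 := conj_exponent h0 z
  unfold ex at h3
  rw [Fintype.sum_sum_type] at h3
  simp only [Sum.elim_inl, Sum.elim_inr, neg_mul, Complex.conj_conj] at h3
  rw [Finset.sum_neg_distrib] at h3
  unfold ex
  exact sub_eq_zero.mp ((sub_eq_add_neg _ _).trans h3)

/-- (G5d, S/M) PROOF. `w_one` for the family on `(ι × κ) ⊕ (ι' × κ')` with coefficients `c i * p j`, `-(d i * q j)` and
exponents `ζ i + α j`, `ξ i + β j`, `W ω = exp (conj ω * z)`, and `conj (α j) = α j`. -/
theorem conj_exponent_mul {c ζ : ι → ℂ} {d ξ : ι' → ℂ} {p α : κ → ℂ} {q β : κ' → ℂ}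
    (hα : ∀ j, (α j).im = 0) (hβ : ∀ j, (β j).im = 0)
    (h : ∀ z, ex c ζ z * ex p α z = ex d ξ z * ex q β z) (z : ℂ) :
    ex c (fun i => conj (ζ i)) z * ex p α z = ex d (fun i => conj (ξ i)) z * ex q β z := by
  have hgen : ∀ {ρ σ : Type} [Fintype ρ] [Fintype σ] (c ζ : ρ → ℂ) (p α : σ → ℂ) (z : ℂ),
      ex c ζ z * ex p α z = ∑ x : ρ × σ, c x.1 * p x.2 * Complex.exp ((ζ x.1 + α x.2) * z) := by
    intro ρ σ _ _ c ζ p α z
    unfold ex
    rw [Finset.sum_mul_sum, Fintype.sum_prod_type]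
    refine Finset.sum_congr rfl fun i _ => Finset.sum_congr rfl fun j _ => ?_
    rw [add_mul, Complex.exp_add]
    ring
  have hα' : ∀ j, conj (α j) = α j := fun j => Complex.conj_eq_iff_im.mpr (hα j)
  have hβ' : ∀ j, conj (β j) = β j := fun j => Complex.conj_eq_iff_im.mpr (hβ j)
  have h0 : ∀ z, ex (Sum.elim (fun x => c x.1 * p x.2) (fun x => -(d x.1 * q x.2)))
      (Sum.elim (fun x => ζ x.1 + α x.2) (fun x => ξ x.1 + β x.2) : (ι × κ) ⊕ (ι' × κ') → ℂ) z = 0 := by
    intro z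
    have h1 := h z
    rw [hgen, hgen] at h1
    unfold ex
    rw [Fintype.sum_sum_type]
    simp only [Sum.elim_inl, Sum.elim_inr, neg_mul]
    rw [Finset.sum_neg_distrib, h1]
    exact add_neg_cancel _
  have h3 := conj_exponent h0 z
  unfold ex at h3
  rw [Fintype.sum_sum_type] at h3
  simp only [Sum.elim_inl, Sum.elim_inr, neg_mul, map_add, hα', hβ'] at h3
  rw [Finset.sum_neg_distrib] at h3
  rw [hgen, hgen]
  exact sub_eq_zero.mp ((sub_eq_add_neg _ _).trans h3)

end H12G
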