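import Pool.Agent.Lib.H12G.Defs
import Pool.Agent.Lib.H12G.G1
import Pool.Agent.Lib.H12G.G2

/-! # H12G, chunk G5B (S/M): classes of exponents -/

namespace H12G

open ComplexConjugate

variable {ι ι' κ κ' : Type} [Fintype ι] [Fintype ι'] [Fintype κ] [Fintype κ']

theorem g5b_gam {u v κ y φ : ℂ} (h : Gam u v κ) : Gam u v (κ + y - φ) ↔ Gam u v (y - φ) := by
  constructor
  · intro h1
    have h2 := gam_add h1 (gam_neg h)
    have e : κ + y - φ + -κ = y - φ := by ring
    rw [e] at h2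
    exact h2
  · intro h1
    have h2 := gam_add h1 h
    have e : y - φ + κ = κ + y - φ := by ring
    rw [e] at h2
    exact h2

/-- (G5e, S/M) PROOF. `w_one` for the same kind of family, `W ω = exp ((ω - s) z)` if `Gam u v (ω - s)`, `0` otherwise;
`Gam u v (α j + ζ i - s)` if and only if `Gam u v (ζ i - s)` (`gam_add`, `gam_neg`). -/
theorem class_mul {u v : ℂ} {c ζ : ι → ℂ} {d ξ : ι' → ℂ} {p α : κ → ℂ} {q β : κ' → ℂ}
    (hα : ∀ j, Gam u v (α j)) (hβ : ∀ j, Gam u v (β j))
    (h : ∀ z, ex p α z * ex c ζ z = ex q β z * ex d ξ z) (s z : ℂ) :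
    ex p α z * cl u v c ζ s z = ex q β z * cl u v d ξ s z := by
  classical
  have hgen : ∀ {ρ σ : Type} [Fintype ρ] [Fintype σ] (p α : ρ → ℂ) (c ζ : σ → ℂ) (z : ℂ),
      ex p α z * ex c ζ z = ∑ x : ρ × σ, p x.1 * c x.2 * Complex.exp ((α x.1 + ζ x.2) * z) := by
    intro ρ σ _ _ p α c ζ z
    unfold ex
    rw [Finset.sum_mul_sum, Fintype.sum_prod_type]
    refine Finset.sum_congr rfl fun i _ => Finset.sum_congr rfl fun j _ => ?_
    rw [add_mul, Complex.exp_add]
    ring
  have hcl : ∀ {ρ σ : Type} [Fintype ρ] [Fintype σ] (p α : ρ → ℂ) (c ζ : σ → ℂ),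
      (∀ j, Gam u v (α j)) → ex p α z * cl u v c ζ s z =
        ∑ x : ρ × σ, p x.1 * c x.2 * (if Gam u v (α x.1 + ζ x.2 - s) then
          Complex.exp ((α x.1 + ζ x.2 - s) * z) else 0) := by
    intro ρ σ _ _ p α c ζ hα
    unfold ex cl
    rw [Finset.sum_mul_sum, Fintype.sum_prod_type]
    refine Finset.sum_congr rfl fun i _ => Finset.sum_congr rfl fun j _ => ?_
    by_cases h1 : Gam u v (ζ j - s)
    · rw [if_pos h1, if_pos ((g5b_gam (hα i)).2 h1)]
      have e : (α i + ζ j - s) * z = α i * z + (ζ j - s) * z := by ring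
      rw [e, Complex.exp_add]
      ring
    · rw [if_neg h1, if_neg (fun h2 => h1 ((g5b_gam (hα i)).1 h2)), mul_zero, mul_zero]
  have h0 : ∀ z, ex (Sum.elim (fun x => p x.1 * c x.2) (fun x => -(q x.1 * d x.2)))
      (Sum.elim (fun x => α x.1 + ζ x.2) (fun x => β x.1 + ξ x.2) : (κ × ι) ⊕ (κ' × ι') → ℂ) z = 0 := by
    intro z
    have h1 := h z
    rw [hgen, hgen] at h1
    unfold ex
    rw [Fintype.sum_sum_type]
    simp only [Sum.elim_inl, Sum.elim_inr, neg_mul]
    rw [Finset.sum_neg_distrib, h1]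
    exact add_neg_cancel _
  have h3 := w_one _ _ h0 (fun ω => if Gam u v (ω - s) then Complex.exp ((ω - s) * z) else 0)
  rw [Fintype.sum_sum_type] at h3
  simp only [Sum.elim_inl, Sum.elim_inr, neg_mul] at h3
  rw [Finset.sum_neg_distrib] at h3
  rw [hcl p α c ζ hα, hcl q β d ξ hβ]
  exact sub_eq_zero.mp ((sub_eq_add_neg _ _).trans h3)

/-- (G5f, S/M) PROOF. Otherwise for every `j` the coefficient sum `∑_{i : ζ i = ζ j} c i` is zero (`w_one` for the
coefficients `if Gam u v (ζ i - ζ j) then c i else 0` and exponents `ζ i - ζ j`, `W = 1` at `0` and `0` elsewhere;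
`gam_zero`), and `ex c ζ z` is a combination of these sums. -/
theorem exists_class {u v : ℂ} {c ζ : ι → ℂ} (h : ∃ z, ex c ζ z ≠ 0) :
    ∃ j, ∃ z, cl u v c ζ (ζ j) z ≠ 0 := by
  classical
  by_contra hcon
  push Not at hcon
  obtain ⟨z, hz⟩ := h
  apply hz
  have h1 : ∀ j, ∑ i, (if ζ i = ζ j then c i else 0) = 0 := by
    intro j
    have h2 : ∀ z, ex (fun i => if Gam u v (ζ i - ζ j) then c i else 0) (fun i => ζ i - ζ j) z = 0 := by
      intro z
      refine Eq.trans ?_ (hcon j z)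
      unfold ex cl
      refine Finset.sum_congr rfl fun i _ => ?_
      by_cases h3 : Gam u v (ζ i - ζ j)
      · simp only [if_pos h3]
      · simp only [if_neg h3, zero_mul]
    have h3 := coeff_zero _ _ h2 0
    refine Eq.trans ?_ h3
    refine Finset.sum_congr rfl fun i _ => ?_
    by_cases h4 : ζ i = ζ j
    · have h5 : ζ i - ζ j = 0 := sub_eq_zero.2 h4
      have h6 : Gam u v (ζ i - ζ j) := by
        rw [h5]
        exact gam_zero u v
      rw [if_pos h4, if_pos h5, if_pos h6]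
    · have h5 : ζ i - ζ j ≠ 0 := sub_ne_zero.2 h4
      rw [if_neg h4, if_neg h5]
  unfold ex
  rw [← Finset.sum_fiberwise_of_maps_to (s := Finset.univ) (t := Finset.univ.image ζ) (g := ζ)
    (fun i _ => Finset.mem_image_of_mem ζ (Finset.mem_univ i))]
  refine Finset.sum_eq_zero fun ω hω => ?_
  obtain ⟨j, -, rfl⟩ := Finset.mem_image.1 hω
  have h2 : ∑ i ∈ Finset.univ.filter (fun i => ζ i = ζ j), c i * Complex.exp (ζ i * z) =
      (∑ i ∈ Finset.univ.filter (fun i => ζ i = ζ j), c i) * Complex.exp (ζ j * z) := by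
    rw [Finset.sum_mul]
    refine Finset.sum_congr rfl fun i hi => ?_
    rw [(Finset.mem_filter.1 hi).2]
  rw [h2, Finset.sum_filter, h1 j, zero_mul]

end H12G
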