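import Pool.Agent.Lib.H12G.Defs
import Pool.Agent.Lib.H12G.G1
import Pool.Agent.Lib.H12G.G2
import Pool.Agent.Lib.H12G.G4
import Pool.Agent.Lib.H12G.G5
import Pool.Agent.Lib.H12G.G5B

/-! # H12G, chunk G6 (M): a ratio with real exponents -/

namespace H12G

open ComplexConjugate

variable {ι ι' : Type} [Fintype ι] [Fintype ι'] {u v : ℂ} {c ζ : ι → ℂ} {d ξ : ι' → ℂ}

theorem g6_as_ex (u v : ℂ) (c ζ : ι → ℂ) (φ : ℂ) (R : ℂ → Prop) (h0 : R 0)
    (h : ∀ i, Gam u v (ζ i - φ) → R (ζ i - φ)) :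
    ∃ a α : ι → ℂ, (∀ i, R (α i)) ∧ ∀ z, cl u v c ζ φ z = ex a α z := by
  classical
  refine ⟨fun i => if Gam u v (ζ i - φ) then c i else 0,
    fun i => if Gam u v (ζ i - φ) then ζ i - φ else 0, fun i => ?_, fun z => ?_⟩
  · show R (if Gam u v (ζ i - φ) then ζ i - φ else 0)
    by_cases h1 : Gam u v (ζ i - φ)
    · rw [if_pos h1]
      exact h i h1
    · rw [if_neg h1]
      exact h0
  · unfold cl ex
    refine Finset.sum_congr rfl fun i _ => ?_
    by_cases h1 : Gam u v (ζ i - φ)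
    · simp only [if_pos h1]
    · simp only [if_neg h1, zero_mul]

theorem g6_conj (a α : ι → ℂ) (z : ℂ) :
    conj (ex a α (conj z)) = ex (fun i => conj (a i)) (fun i => conj (α i)) z := by
  unfold ex
  rw [map_sum]
  refine Finset.sum_congr rfl fun i _ => ?_
  rw [map_mul, ← Complex.exp_conj, map_mul, Complex.conj_conj]

/-- (G6a, S) PROOF. The coefficients `if Gam u v (ζ i - φ) then c i else 0` and the exponents
`if Gam u v (ζ i - φ) then ζ i - φ else 0`; `gam_zero`. -/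
theorem cl_as_ex (u v : ℂ) (c ζ : ι → ℂ) (φ : ℂ) :
    ∃ a α : ι → ℂ, (∀ i, Gam u v (α i)) ∧ ∀ z, cl u v c ζ φ z = ex a α z :=
  g6_as_ex u v c ζ φ (fun κ => Gam u v κ) (gam_zero u v) (fun _ h => h)

/-- (G6b, M) PROOF. `C = ex c ζ`, `D = ex d ξ`. `C ≠ 0`, so `ex (conj c) ζ ≠ 0` (`conj_coeff`), and `exists_class`
gives `φ = ζ j` with `P = cl (conj c) ζ φ ≠ 0`; put `Q = cl (conj d) ξ φ`. `total_identity`: `C P = D Q`, so `D ≠ 0`,
`Q ≠ 0` (`entire_mul_eq_zero`). Take the conjugate at `conj z` and use that `C`, `D` are real: `C P' = D Q'` with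
`P' z = conj (P (conj z))`, an exponential sum with exponents in `conj Γ`. Hence `C (P Q') = D Q Q' = Q (C P')`, so
`P Q' = Q P'`. `P = ex a α`, `Q = ex b β` with exponents in `Γ` (`cl_as_ex`), `P' = ex a' (conj α)`,
`Q' = ex b' (conj β)`, `a' = conj a`. `Q' ≠ 0`: `exists_class` gives `s = conj (β j)` with
`q = cl b' (conj β) s ≠ 0`; `class_mul`: `P q = Q p`, `p = cl a' (conj α) s`. The exponents of `p` and `q` are in `Γ`
(definition of `cl`) and are differences of elements of `conj Γ`, so they are real by `hΓ`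
(write `p`, `q` as `ex` with these exponents, and exponent `0` for the terms that are `0`).
Finally `C P q = D Q q` and `P q = Q p` give `C p = D q` (`Q ≠ 0`). -/
theorem real_ratio (hdet : u.re * v.im - u.im * v.re ≠ 0)
    (hΓ : ∀ κ : ℂ, Gam u v κ → Gam u v (conj κ) → κ.im = 0)
    (H : ∀ m n : ℤ, ‖ex c ζ (m * u + n * v)‖ = ‖ex d ξ (m * u + n * v)‖)
    (hC : ∀ z, ex c ζ (conj z) = conj (ex c ζ z)) (hD : ∀ z, ex d ξ (conj z) = conj (ex d ξ z))
    (h0 : ∃ z, ex c ζ z ≠ 0) :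
    ∃ (p α : ι → ℂ) (q β : ι' → ℂ), (∀ i, (α i).im = 0) ∧ (∀ i, (β i).im = 0) ∧
      (∃ z, ex q β z ≠ 0) ∧ ∀ z, ex c ζ z * ex p α z = ex d ξ z * ex q β z := by
  have h0' : ∃ z, ex (fun i => conj (c i)) ζ z ≠ 0 := by
    by_contra hcon
    push Not at hcon
    obtain ⟨z, hz⟩ := h0
    apply hz
    have h1 := conj_coeff hcon z
    simp only [Complex.conj_conj] at h1
    exact h1
  obtain ⟨j, hj⟩ := exists_class (u := u) (v := v) h0'
  obtain ⟨φ, hφ⟩ : ∃ φ, φ = ζ j := ⟨_, rfl⟩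
  rw [← hφ] at hj
  have hT := total_identity hdet H φ
  obtain ⟨a, α, hα, hP⟩ := cl_as_ex u v (fun i => conj (c i)) ζ φ
  obtain ⟨b, β, hβ, hQ⟩ := cl_as_ex u v (fun i => conj (d i)) ξ φ
  simp only [hP, hQ] at hT
  simp only [hP] at hj
  have hC0 : ¬ ∀ z, ex c ζ z = 0 := fun h => by
    obtain ⟨z, hz⟩ := h0
    exact hz (h z)
  have hP0 : ¬ ∀ z, ex a α z = 0 := fun h => by
    obtain ⟨z, hz⟩ := hj
    exact hz (h z)
  have hQ0 : ¬ ∀ z, ex b β z = 0 := fun h => by
    rcases entire_mul_eq_zero (ex_differentiable c ζ) (ex_differentiable a α)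
      (fun z => by rw [hT z, h z, mul_zero]) with h1 | h1
    · exact hC0 h1
    · exact hP0 h1
  obtain ⟨a', ha'⟩ : ∃ a' : ι → ℂ, a' = fun i => conj (a i) := ⟨_, rfl⟩
  obtain ⟨α', hα'⟩ : ∃ α' : ι → ℂ, α' = fun i => conj (α i) := ⟨_, rfl⟩
  obtain ⟨b', hb'⟩ : ∃ b' : ι' → ℂ, b' = fun i => conj (b i) := ⟨_, rfl⟩
  obtain ⟨β', hβ'⟩ : ∃ β' : ι' → ℂ, β' = fun i => conj (β i) := ⟨_, rfl⟩
  have hP' : ∀ z, conj (ex a α (conj z)) = ex a' α' z := fun z => by
    rw [g6_conj, ha', hα']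
  have hQ' : ∀ z, conj (ex b β (conj z)) = ex b' β' z := fun z => by
    rw [g6_conj, hb', hβ']
  have hT' : ∀ z, ex c ζ z * ex a' α' z = ex d ξ z * ex b' β' z := fun z => by
    have h1 := congrArg conj (hT (conj z))
    rw [map_mul, map_mul, hP', hQ', hC, hD, Complex.conj_conj, Complex.conj_conj] at h1
    exact h1
  have hPQ : ∀ z, ex a α z * ex b' β' z = ex b β z * ex a' α' z := by
    have hd1 : Differentiable ℂ (fun z => ex a α z * ex b' β' z - ex b β z * ex a' α' z) :=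
      ((ex_differentiable a α).mul (ex_differentiable b' β')).sub
        ((ex_differentiable b β).mul (ex_differentiable a' α'))
    rcases entire_mul_eq_zero (ex_differentiable c ζ) hd1 (fun z => by
      have h1 := hT z
      have h2 := hT' z
      linear_combination (ex b' β' z) * h1 - (ex b β z) * h2) with h1 | h1
    · exact absurd h1 hC0
    · exact fun z => sub_eq_zero.1 (h1 z)
  have hQ0' : ∃ z, ex b' β' z ≠ 0 := by
    by_contra hcon
    push Not at hcon
    apply hQ0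
    intro z
    have h1 := hQ' (conj z)
    rw [Complex.conj_conj, hcon] at h1
    have h2 := congrArg conj h1
    rw [Complex.conj_conj, map_zero] at h2
    exact h2
  obtain ⟨k, hk⟩ := exists_class (u := u) (v := v) hQ0'
  obtain ⟨s, hs⟩ : ∃ s, s = β' k := ⟨_, rfl⟩
  rw [← hs] at hk
  have hcm := class_mul hα hβ hPQ s
  have hs' : s = conj (β k) := by rw [hs, hβ']
  have hgam : ∀ κ : ℂ, Gam u v κ → Gam u v (conj κ - s) → (conj κ - s).im = 0 := fun κ h1 h2 => by
    have e : conj κ - s = conj (κ + -β k) := by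
      rw [hs', map_add, map_neg, sub_eq_add_neg]
    rw [e] at h2 ⊢
    have h3 := hΓ _ (gam_add h1 (gam_neg (hβ k))) h2
    rw [Complex.conj_im, h3, neg_zero]
  obtain ⟨p, α₁, hα₁, hp⟩ := g6_as_ex u v a' α' s (fun κ => κ.im = 0) Complex.zero_im
    (fun i h1 => by
      rw [hα'] at h1 ⊢
      exact hgam _ (hα i) h1)
  obtain ⟨q, β₁, hβ₁, hq⟩ := g6_as_ex u v b' β' s (fun κ => κ.im = 0) Complex.zero_im
    (fun i h1 => by
      rw [hβ'] at h1 ⊢
      exact hgam _ (hβ i) h1)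
  simp only [hp, hq] at hcm
  simp only [hq] at hk
  refine ⟨p, α₁, q, β₁, hα₁, hβ₁, hk, ?_⟩
  have hd1 : Differentiable ℂ (fun z => ex c ζ z * ex p α₁ z - ex d ξ z * ex q β₁ z) :=
    ((ex_differentiable c ζ).mul (ex_differentiable p α₁)).sub
      ((ex_differentiable d ξ).mul (ex_differentiable q β₁))
  rcases entire_mul_eq_zero (ex_differentiable b β) hd1 (fun z => by
    have h1 := hT z
    have h2 := hcm z
    linear_combination (ex q β₁ z) * h1 - (ex c ζ z) * h2) with h1 | h1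
  · exact absurd h1 hQ0
  · exact fun z => sub_eq_zero.1 (h1 z)

end H12G
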