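import Pool.Agent.Lib.H12G.Defs
import Pool.Agent.Lib.H12G.G1
import Pool.Agent.Lib.H12G.G4
import Pool.Agent.Lib.H12G.G5
import Pool.Agent.Lib.H12G.G5B
import Pool.Agent.Lib.H12G.G6

/-! # H12G, chunk G7 (M): real exponential sums with equal moduli on the lattice -/

namespace H12G

open ComplexConjugate

variable {ι ι' : Type} [Fintype ι] [Fintype ι'] {u v : ℂ} {c ζ : ι → ℂ} {d ξ : ι' → ℂ}

/-- (G7a, S/M) PROOF. `norm_identity`: `D * ex (conj d) ξ = 0`, so `D = 0` or `ex (conj d) ξ = 0`
(`entire_mul_eq_zero`); in the second case `D = 0` by `conj_coeff`. -/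
theorem eq_zero_of_zero (hdet : u.re * v.im - u.im * v.re ≠ 0)
    (H : ∀ m n : ℤ, ‖ex c ζ (m * u + n * v)‖ = ‖ex d ξ (m * u + n * v)‖)
    (h0 : ∀ z, ex c ζ z = 0) (z : ℂ) : ex d ξ z = 0 := by
  have h1 : ∀ z, ex d ξ z * ex (fun i => conj (d i)) ξ z = 0 := by
    intro z
    rw [← norm_identity hdet H z, h0 z, zero_mul]
  rcases entire_mul_eq_zero (ex_differentiable _ _) (ex_differentiable _ _) h1 with h2 | h2
  · exact h2 z
  · have h3 := conj_coeff h2 z
    simpa using h3

/-- (G7b, M) PROOF. If `C = ex c ζ = 0`: `eq_zero_of_zero`. Otherwise `real_ratio`: `C p = D q`, `q ≠ 0`, real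
exponents. `conj_exponent_mul`: `C' p = D' q` with `C' = ex c (conj ζ) = ex (conj c) ζ` (`real_symm`), the same for
`D'`. `norm_identity`: `C C' = D D'`. Product: `C C' p ^ 2 = D D' q ^ 2 = C C' q ^ 2`, and `C C' ≠ 0` (`conj_coeff`), so
`(p - q) (p + q) = 0`: `p = q` or `p = -q` (`entire_mul_eq_zero` several times), and `C p = D q` with `q ≠ 0` gives
`D = C` or `D = -C`. -/
theorem real_unique (hdet : u.re * v.im - u.im * v.re ≠ 0)
    (hΓ : ∀ κ : ℂ, Gam u v κ → Gam u v (conj κ) → κ.im = 0)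
    (H : ∀ m n : ℤ, ‖ex c ζ (m * u + n * v)‖ = ‖ex d ξ (m * u + n * v)‖)
    (hC : ∀ z, ex c ζ (conj z) = conj (ex c ζ z)) (hD : ∀ z, ex d ξ (conj z) = conj (ex d ξ z)) :
    (∀ z, ex d ξ z = ex c ζ z) ∨ ∀ z, ex d ξ z = -ex c ζ z := by
  by_cases h0 : ∀ z, ex c ζ z = 0
  · left
    intro z
    rw [eq_zero_of_zero hdet H h0 z, h0 z]
  push Not at h0
  obtain ⟨p, α, q, β, hα, hβ, hq, hpq⟩ := real_ratio hdet hΓ H hC hD h0
  have hcm := conj_exponent_mul hα hβ hpq
  have hCne : ¬ ∀ z, ex c ζ z = 0 := by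
    intro h
    obtain ⟨z, hz⟩ := h0
    exact hz (h z)
  have hqne : ¬ ∀ z, ex q β z = 0 := by
    intro h
    obtain ⟨z, hz⟩ := hq
    exact hz (h z)
  have hC'ne : ¬ ∀ z, ex (fun i => conj (c i)) ζ z = 0 := by
    intro h
    apply hCne
    intro z
    have h3 := conj_coeff h z
    simpa using h3
  have key : ∀ z, ex c ζ z * (ex (fun i => conj (c i)) ζ z *
      ((ex p α z - ex q β z) * (ex p α z + ex q β z))) = 0 := by
    intro z
    have h1 := hpq z
    have h2 := hcm z
    rw [← real_symm hC, ← real_symm hD] at h2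
    have h3 := norm_identity hdet H z
    have e1 : ex c ζ z * ex (fun i => conj (c i)) ζ z * ex p α z ^ 2 =
        ex c ζ z * ex (fun i => conj (c i)) ζ z * ex q β z ^ 2 := by
      calc ex c ζ z * ex (fun i => conj (c i)) ζ z * ex p α z ^ 2
          = (ex c ζ z * ex p α z) * (ex (fun i => conj (c i)) ζ z * ex p α z) := by ring
        _ = (ex d ξ z * ex q β z) * (ex (fun i => conj (d i)) ξ z * ex q β z) := by rw [h1, h2]
        _ = (ex d ξ z * ex (fun i => conj (d i)) ξ z) * ex q β z ^ 2 := by ring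
        _ = ex c ζ z * ex (fun i => conj (c i)) ζ z * ex q β z ^ 2 := by rw [← h3]
    linear_combination e1
  have d1 : Differentiable ℂ fun z => ex p α z - ex q β z :=
    (ex_differentiable _ _).sub (ex_differentiable _ _)
  have d2 : Differentiable ℂ fun z => ex p α z + ex q β z :=
    (ex_differentiable _ _).add (ex_differentiable _ _)
  have k1 : ∀ z, ex (fun i => conj (c i)) ζ z *
      ((ex p α z - ex q β z) * (ex p α z + ex q β z)) = 0 :=
    (entire_mul_eq_zero (ex_differentiable c ζ)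
      ((ex_differentiable _ _).mul (d1.mul d2)) key).resolve_left hCne
  have k2 : ∀ z, (ex p α z - ex q β z) * (ex p α z + ex q β z) = 0 :=
    (entire_mul_eq_zero (ex_differentiable (fun i => conj (c i)) ζ)
      (d1.mul d2) k1).resolve_left hC'ne
  rcases entire_mul_eq_zero d1 d2 k2 with h | h
  · left
    have k3 : ∀ z, ex q β z * (ex d ξ z - ex c ζ z) = 0 := by
      intro z
      have h1 := hpq z
      have h2 : ex p α z = ex q β z := sub_eq_zero.1 (h z)
      rw [h2] at h1
      linear_combination -h1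
    have k4 := (entire_mul_eq_zero (ex_differentiable q β)
      ((ex_differentiable d ξ).sub (ex_differentiable c ζ)) k3).resolve_left hqne
    intro z
    exact sub_eq_zero.1 (k4 z)
  · right
    have k3 : ∀ z, ex q β z * (ex d ξ z + ex c ζ z) = 0 := by
      intro z
      have h1 := hpq z
      have h2 : ex p α z = -ex q β z := eq_neg_of_add_eq_zero_left (h z)
      rw [h2] at h1
      linear_combination -h1
    have k4 := (entire_mul_eq_zero (ex_differentiable q β)
      ((ex_differentiable d ξ).add (ex_differentiable c ζ)) k3).resolve_left hqne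
    intro z
    exact eq_neg_of_add_eq_zero_left (k4 z)

end H12G
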