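import Pool.Agent.Lib.H12G.Defs
import Pool.Agent.Lib.H12G.G1
import Pool.Agent.Lib.H12G.G4
import Pool.Agent.Lib.H12G.G5
import Pool.Agent.Lib.H12G.G5B
import Pool.Agent.Lib.H12G.G6
import Pool.Agent.Lib.H12G.G7

/-! # H12G, chunk G8 (M): complex exponential sums, necessity -/

namespace H12G

open ComplexConjugate

variable {ι ι' : Type} [Fintype ι] [Fintype ι'] {u v : ℂ} {c ζ : ι → ℂ} {d ξ : ι' → ℂ}

/-- (G8a, S) PROOF. `exp_gam_conj` for every term. -/
theorem conj_cl (u v : ℂ) (c ζ : ι → ℂ) (φ : ℂ) (m n : ℤ) :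
    conj (cl u v c ζ φ (m * u + n * v)) = cl u v (fun i => conj (c i)) ζ φ (m * u + n * v) := by
  unfold cl
  rw [map_sum]
  refine Finset.sum_congr rfl fun i _ => ?_
  by_cases h : Gam u v (ζ i - φ)
  · rw [if_pos h, if_pos h, map_mul, exp_gam_conj h m n]
  · rw [if_neg h, if_neg h, map_zero]

theorem g8_gamSum (u v : ℂ) (c ζ : ι → ℂ) (φ : ℂ) : GamSum u v (cl u v c ζ φ) := by
  obtain ⟨a, α, hα, h⟩ := cl_as_ex u v c ζ φ
  refine ⟨Fintype.card ι, fun i => a ((Fintype.equivFin ι).symm i),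
    fun i => α ((Fintype.equivFin ι).symm i), fun i => hα _, fun z => ?_⟩
  rw [h z]
  unfold ex
  exact (Equiv.sum_comp (Fintype.equivFin ι).symm fun i => a i * Complex.exp (α i * z)).symm

theorem g8_cl_diff (u v : ℂ) (c ζ : ι → ℂ) (φ : ℂ) : Differentiable ℂ (cl u v c ζ φ) := by
  obtain ⟨a, α, hα, h⟩ := cl_as_ex u v c ζ φ
  have h1 : cl u v c ζ φ = ex a α := funext h
  rw [h1]
  exact ex_differentiable _ _

/-- (G8b, M) PROOF. If `C = ex c ζ = 0`, then `D = 0` (as in `eq_zero_of_zero`) and `A = B = 1` works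
(`GamSum` with one exponent `0`). Otherwise `conj_coeff` and `exists_class` give `φ` with
`A = cl (conj c) ζ φ ≠ 0`; `B = cl (conj d) ξ φ`. `total_identity`: `C A = D B`, so `B ≠ 0`. `GamSum`: `cl_as_ex` (and
an equivalence of the index type with `Fin n`). At a lattice point `l`:
`‖A l‖ ^ 2 = A l * conj (A l) = cl (conj c) ζ φ l * cl c ζ φ l` (`conj_cl`), which is the same for `d`
(`class_identity` with `θ = φ`). -/
theorem complex_necessary (hdet : u.re * v.im - u.im * v.re ≠ 0)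
    (H : ∀ m n : ℤ, ‖ex c ζ (m * u + n * v)‖ = ‖ex d ξ (m * u + n * v)‖) :
    ∃ A B : ℂ → ℂ, GamSum u v A ∧ GamSum u v B ∧ (∃ z, A z ≠ 0) ∧ (∃ z, B z ≠ 0) ∧
      (∀ z, B z * ex d ξ z = A z * ex c ζ z) ∧
      ∀ m n : ℤ, ‖A (m * u + n * v)‖ = ‖B (m * u + n * v)‖ := by
  by_cases h0 : ∀ z, ex c ζ z = 0
  · have hg : GamSum u v fun _ => 1 := by
      refine ⟨1, fun _ => 1, fun _ => 0, fun _ => gam_zero u v, fun z => ?_⟩
      simp [ex]
    refine ⟨fun _ => 1, fun _ => 1, hg, hg, ⟨0, one_ne_zero⟩, ⟨0, one_ne_zero⟩, fun z => ?_,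
      fun m n => rfl⟩
    rw [eq_zero_of_zero hdet H h0 z, h0 z]
  · have hC' : ∃ z, ex (fun i => conj (c i)) ζ z ≠ 0 := by
      by_contra hcon
      push Not at hcon
      apply h0
      intro z
      have h3 := conj_coeff hcon z
      simpa using h3
    obtain ⟨j, z₀, hz₀⟩ := exists_class (u := u) (v := v) hC'
    have ht := total_identity hdet H (ζ j)
    refine ⟨cl u v (fun i => conj (c i)) ζ (ζ j), cl u v (fun i => conj (d i)) ξ (ζ j),
      g8_gamSum _ _ _ _ _, g8_gamSum _ _ _ _ _, ⟨z₀, hz₀⟩, ?_, fun z => ?_, fun m n => ?_⟩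
    · by_contra hcon
      push Not at hcon
      have h1 : ∀ z, ex c ζ z * cl u v (fun i => conj (c i)) ζ (ζ j) z = 0 := by
        intro z
        rw [ht z, hcon z, mul_zero]
      rcases entire_mul_eq_zero (ex_differentiable _ _) (g8_cl_diff _ _ _ _ _) h1 with h2 | h2
      · exact h0 h2
      · exact hz₀ (h2 z₀)
    · rw [mul_comm, ← ht z, mul_comm]
    · have hci := class_identity hdet H (ζ j) (ζ j) (m * u + n * v)
      have e1 : cl u v c ζ (ζ j) (m * u + n * v) =
          conj (cl u v (fun i => conj (c i)) ζ (ζ j) (m * u + n * v)) := by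
        rw [conj_cl]
        simp
      have e2 : cl u v d ξ (ζ j) (m * u + n * v) =
          conj (cl u v (fun i => conj (d i)) ξ (ζ j) (m * u + n * v)) := by
        rw [conj_cl]
        simp
      rw [e1, e2, Complex.conj_mul', Complex.conj_mul'] at hci
      have h5 : ‖cl u v (fun i => conj (c i)) ζ (ζ j) (m * u + n * v)‖ ^ 2 =
          ‖cl u v (fun i => conj (d i)) ξ (ζ j) (m * u + n * v)‖ ^ 2 := by
        exact_mod_cast hci
      exact (pow_left_inj₀ (norm_nonneg _) (norm_nonneg _) two_ne_zero).1 h5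

end H12G
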