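import Pool.Agent.Lib.H12G.Defs
import Pool.Agent.Lib.H12G.G1
import Pool.Agent.Lib.H12G.G3
import Pool.Agent.Lib.H12G.G5
import Pool.Agent.Lib.H12G.G5B

/-! # H12G, chunk G9 (M): complex exponential sums, sufficiency, part 1 -/

namespace H12G

open ComplexConjugate

variable {ι ι' κ κ' : Type} [Fintype ι] [Fintype ι'] [Fintype κ] [Fintype κ'] {u v : ℂ}

theorem g9_mul (a α : κ → ℂ) (b β : κ' → ℂ) (z : ℂ) :
    ex a α z * ex b β z =
      ∑ p : κ × κ', (a p.1 * b p.2) * Complex.exp ((α p.1 + β p.2) * z) := by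
  unfold ex
  rw [Fintype.sum_mul_sum, Fintype.sum_prod_type]
  refine Finset.sum_congr rfl fun i _ => Finset.sum_congr rfl fun j _ => ?_
  simp only
  rw [add_mul, Complex.exp_add]
  ring

theorem g9_conj {a α : κ → ℂ} (hα : ∀ j, Gam u v (α j)) (m n : ℤ) :
    conj (ex a α (m * u + n * v)) = ex (fun i => conj (a i)) α (m * u + n * v) := by
  unfold ex
  rw [map_sum]
  refine Finset.sum_congr rfl fun i _ => ?_
  rw [map_mul, exp_gam_conj (hα i)]

theorem g9_norm {a α : κ → ℂ} (hα : ∀ j, Gam u v (α j)) (m n : ℤ) :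
    ex a α (m * u + n * v) * ex (fun i => conj (a i)) α (m * u + n * v) =
      ((‖ex a α (m * u + n * v)‖ ^ 2 : ℝ) : ℂ) := by
  rw [← g9_conj hα, Complex.mul_conj, Complex.normSq_eq_norm_sq]

theorem g9_cl_diff (c ζ : ι → ℂ) (φ : ℂ) : Differentiable ℂ (cl u v c ζ φ) := by
  classical
  unfold cl
  refine Differentiable.fun_sum fun i _ => ?_
  by_cases h : Gam u v (ζ i - φ)
  · simp only [h, if_true]
    fun_prop
  · simp only [h, if_false]
    fun_prop

theorem g9_conj_mul {a α : κ → ℂ} {b β : κ' → ℂ} {c ζ : ι → ℂ} {d ξ : ι' → ℂ}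
    (hr : ∀ z, ex b β z * ex d ξ z = ex a α z * ex c ζ z) (z : ℂ) :
    ex (fun i => conj (b i)) β z * ex (fun i => conj (d i)) ξ z =
      ex (fun i => conj (a i)) α z * ex (fun i => conj (c i)) ζ z := by
  have key : ∀ z, ex (Sum.elim (fun p : κ' × ι' => b p.1 * d p.2)
      (fun p : κ × ι => -(a p.1 * c p.2)))
      (Sum.elim (fun p : κ' × ι' => β p.1 + ξ p.2) (fun p : κ × ι => α p.1 + ζ p.2)) z = 0 := by
    intro z
    have h := hr z
    rw [g9_mul, g9_mul] at h
    unfold ex
    rw [Fintype.sum_sum_type]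
    simp only [Sum.elim_inl, Sum.elim_inr, neg_mul, Finset.sum_neg_distrib]
    rw [h]
    ring
  have k2 := conj_coeff key z
  rw [g9_mul, g9_mul]
  unfold ex at k2
  rw [Fintype.sum_sum_type] at k2
  simp only [Sum.elim_inl, Sum.elim_inr, map_neg, map_mul, neg_mul,
    Finset.sum_neg_distrib] at k2
  linear_combination k2

/-- (G9a, M) PROOF. At a lattice point `‖A l‖ ^ 2 = A l * ex (conj a) α l` since `exp (α i l)` is real
(`exp_gam_conj`), `A = ex a α`. So the exponential sum `A * ex (conj a) α - B * ex (conj b) β` vanishes on the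
lattice; `w_two` for the family on `(κ × κ) ⊕ (κ' × κ')` with first exponents `α i + α j`, `β i + β j` and second
exponents `0`, `W x y = exp ((x + y) z)`. -/
theorem norm_identity_gam (hdet : u.re * v.im - u.im * v.re ≠ 0) {a α : κ → ℂ} {b β : κ' → ℂ}
    (hα : ∀ j, Gam u v (α j)) (hβ : ∀ j, Gam u v (β j))
    (H : ∀ m n : ℤ, ‖ex a α (m * u + n * v)‖ = ‖ex b β (m * u + n * v)‖) (z : ℂ) :
    ex a α z * ex (fun i => conj (a i)) α z = ex b β z * ex (fun i => conj (b i)) β z := by
  classical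
  have h := w_two (u := u) (v := v) hdet
    (Sum.elim (fun p : κ × κ => a p.1 * conj (a p.2)) (fun p : κ' × κ' => -(b p.1 * conj (b p.2))))
    (Sum.elim (fun p : κ × κ => α p.1 + α p.2) (fun p : κ' × κ' => β p.1 + β p.2))
    (fun _ => 0) ?_ (fun x y => Complex.exp ((x + y) * z)) ?_
  · rw [Fintype.sum_sum_type] at h
    simp only [Sum.elim_inl, Sum.elim_inr, neg_mul, Finset.sum_neg_distrib, add_zero] at h
    rw [g9_mul, g9_mul]
    linear_combination h
  · intro m n
    have h1 := g9_norm (u := u) (v := v) (a := a) hα m n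
    have h2 := g9_norm (u := u) (v := v) (a := b) hβ m n
    rw [H m n, ← h2, g9_mul, g9_mul] at h1
    rw [Fintype.sum_sum_type]
    simp only [Sum.elim_inl, Sum.elim_inr, neg_mul, Finset.sum_neg_distrib, zero_mul, map_zero,
      add_zero]
    linear_combination h1
  · intro x y κ _
    have e : x + κ + (y - κ) = x + y := by ring
    rw [e]

/-- (G9b, M) PROOF. `class_mul` gives `B * cl d ξ θ = A * cl c ζ θ`. The same identity with conjugate coefficients:
`B' * cl (conj d) ξ φ = A' * cl (conj c) ζ φ` (`A' = ex (conj a) α`; `conj_coeff` for the family of all products on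
`(κ' × ι') ⊕ (κ × ι)`, then `class_mul`). Product, `norm_identity_gam`: `A A' = B B' ≠ 0`, cancel
(`entire_mul_eq_zero`; `ex (conj a) α ≠ 0` by `conj_coeff`). -/
theorem class_identity_of_ratio (hdet : u.re * v.im - u.im * v.re ≠ 0) {a α : κ → ℂ}
    {b β : κ' → ℂ} {c ζ : ι → ℂ} {d ξ : ι' → ℂ}
    (hα : ∀ j, Gam u v (α j)) (hβ : ∀ j, Gam u v (β j))
    (H : ∀ m n : ℤ, ‖ex a α (m * u + n * v)‖ = ‖ex b β (m * u + n * v)‖)
    (hA : ∃ z, ex a α z ≠ 0) (hB : ∃ z, ex b β z ≠ 0)
    (hr : ∀ z, ex b β z * ex d ξ z = ex a α z * ex c ζ z) (θ φ z : ℂ) :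
    cl u v c ζ θ z * cl u v (fun i => conj (c i)) ζ φ z =
      cl u v d ξ θ z * cl u v (fun i => conj (d i)) ξ φ z := by
  have e1 := fun z => class_mul (u := u) (v := v) hβ hα hr θ z
  have e2 := fun z => class_mul (u := u) (v := v) hβ hα (g9_conj_mul hr) φ z
  have e3 := fun z => norm_identity_gam (u := u) (v := v) hdet hα hβ H z
  have hdF : Differentiable ℂ (fun z => ex a α z * ex (fun i => conj (a i)) α z) :=
    (ex_differentiable a α).mul (ex_differentiable _ α)
  have hdG : Differentiable ℂ (fun z =>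
      cl u v c ζ θ z * cl u v (fun i => conj (c i)) ζ φ z -
      cl u v d ξ θ z * cl u v (fun i => conj (d i)) ξ φ z) :=
    ((g9_cl_diff c ζ θ).mul (g9_cl_diff _ ζ φ)).sub ((g9_cl_diff d ξ θ).mul (g9_cl_diff _ ξ φ))
  have hz := entire_mul_eq_zero hdF hdG (fun z => by
    have h1 := e1 z
    have h2 := e2 z
    have h3 := e3 z
    linear_combination (-(ex (fun i => conj (b i)) β z * cl u v (fun i => conj (d i)) ξ φ z)) * h1
      - (ex a α z * cl u v c ζ θ z) * h2 - (cl u v d ξ θ z * cl u v (fun i => conj (d i)) ξ φ z) * h3)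
  rcases hz with hz | hz
  · exfalso
    rcases entire_mul_eq_zero (ex_differentiable a α) (ex_differentiable _ α) hz with h0 | h0
    · obtain ⟨w, hw⟩ := hA
      exact hw (h0 w)
    · obtain ⟨w, hw⟩ := hA
      have h5 := conj_coeff h0 w
      simp only [Complex.conj_conj] at h5
      exact hw h5
  · exact sub_eq_zero.mp (hz z)

end H12G
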