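import Pool.Agent.Lib.H12G.G7
import Pool.Agent.Lib.H12G.G8
import Pool.Agent.Lib.H12G.G9
import Pool.Agent.Lib.H12G.G10
import Pool.Agent.Lib.H12G.G11
import Pool.Agent.Lib.H12G.G11B

/-! # H12G, chunk G12 (S/M): the theorems -/

namespace H12G

open MeasureTheory ComplexConjugate H12S

/-- (G12a, S) PROOF. `stft_norm_iff` / `samples_Psi`; the factor `exp (π l ^ 2 / 2)` is not zero. -/
theorem samples_iff {a b c d : ℝ} {f h : ℝ → ℂ} {ι ι' : Type} [Fintype ι] [Fintype ι']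
    {p ζ : ι → ℂ} {q ξ : ι' → ℂ}
    (hf : ∀ z, Psi f z = Complex.exp (Real.pi * z ^ 2 / 2) * ex p ζ z)
    (hh : ∀ z, Psi h z = Complex.exp (Real.pi * z ^ 2 / 2) * ex q ξ z) :
    SameSamples a b c d f h ↔ ∀ m n : ℤ,
      ‖ex p ζ (m * (⟨a, -c⟩ : ℂ) + n * (⟨b, -d⟩ : ℂ))‖ =
        ‖ex q ξ (m * (⟨a, -c⟩ : ℂ) + n * (⟨b, -d⟩ : ℂ))‖ := by
  unfold SameSamples
  refine forall_congr' fun m => forall_congr' fun n => ?_
  rw [stft_norm_iff]
  have h1 := r1_arg a b c d m n
  rw [← h1, hf, hh, norm_mul, norm_mul]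
  exact mul_right_inj' (norm_ne_zero_iff.2 (Complex.exp_ne_zero _))

theorem g12_det {a b c d : ℝ} (hdet : a * d - b * c ≠ 0) :
    (⟨a, -c⟩ : ℂ).re * (⟨b, -d⟩ : ℂ).im - (⟨a, -c⟩ : ℂ).im * (⟨b, -d⟩ : ℂ).re ≠ 0 := by
  intro h
  apply hdet
  simp only at h
  linear_combination -h

theorem g12_real {f : ℝ → ℝ} {ι : Type} [Fintype ι] {p ζ : ι → ℂ}
    (hf : ∀ z, Psi (toC f) z = Complex.exp (Real.pi * z ^ 2 / 2) * ex p ζ z) (z : ℂ) :
    ex p ζ (conj z) = conj (ex p ζ z) := by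
  have h1 := Psi_conj f z
  rw [hf, hf, map_mul, ← Complex.exp_conj] at h1
  have h2 : conj ((Real.pi : ℂ) * z ^ 2 / 2) = Real.pi * (conj z) ^ 2 / 2 := by
    rw [map_div₀, map_mul, map_pow, Complex.conj_ofReal, map_ofNat]
  rw [h2] at h1
  exact mul_left_cancel₀ (Complex.exp_ne_zero _) h1

theorem g12_eq {f h : ℝ → ℝ} (hf : GaborSum (toC f)) (hh : GaborSum (toC h)) {u : ℝ}
    (hu : ∀ z : ℂ, Psi (toC h) z = (u : ℂ) * Psi (toC f) z) (t : ℝ) : h t = u * f t := by
  obtain ⟨hf1, hf2⟩ := gaborSum_memLp hf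
  obtain ⟨hh1, hh2⟩ := gaborSum_memLp hh
  have h1 : ∀ᵐ t : ℝ, toC h t = (u : ℂ) * toC f t := eq_of_Psi hf2 hh2 hu
  have h2 : toC h = fun t => (u : ℂ) * toC f t :=
    (Continuous.ae_eq_iff_eq volume hh1 (continuous_const.mul hf1)).1 h1
  have h3 := congrFun h2 t
  simp only [toC] at h3
  exact_mod_cast h3

/-- (G12b, S/M) PROOF. Left to right: `Psi_gaborSum`, `Psi_conj`, `samples_iff`, `gam_real`, `real_unique`,
`eq_of_Psi` (`u = ± 1`), and `f`, `h` are continuous, so the equality holds everywhere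
(`Continuous.ae_eq_iff_eq`). Right to left: the pair of `counter_real` is `trig η 1`, `trig η (-1)`; copy its proof with
`gaborSum_trig` (`common_divisor`, `η = π / g`, `Psi_trig`, `norm_cos_sin`). -/
theorem gabor_real {a b c d : ℝ} (hdet : a * d - b * c ≠ 0) :
    IndepQ a b ↔ ∀ f h : ℝ → ℝ, GaborSum (toC f) → GaborSum (toC h) →
      SameSamples a b c d (toC f) (toC h) → (∀ t, h t = f t) ∨ ∀ t, h t = -f t := by
  constructor
  · intro hind f h hf hh H
    obtain ⟨n₁, p, ζ, hp⟩ := Psi_gaborSum hf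
    obtain ⟨n₂, q, ξ, hq⟩ := Psi_gaborSum hh
    have H' := (samples_iff hp hq).1 H
    rcases real_unique (g12_det hdet) (fun κ h₁ h₂ => gam_real hdet hind h₁ h₂) H'
      (g12_real hp) (g12_real hq) with h1 | h1
    · left
      intro t
      have h2 := g12_eq hf hh (u := 1) (fun z => by rw [hp, hq, h1]; push_cast; ring) t
      rw [one_mul] at h2
      exact h2
    · right
      intro t
      have h2 := g12_eq hf hh (u := -1) (fun z => by rw [hp, hq, h1]; push_cast; ring) t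
      rw [neg_one_mul] at h2
      exact h2
  · intro hall
    by_contra hdep
    have h0 : ¬ (a = 0 ∧ b = 0) := by
      rintro ⟨rfl, rfl⟩
      exact hdet (by ring)
    obtain ⟨g, k, l, hg, ha, hb⟩ := common_divisor hdep h0
    have hS : SameSamples a b c d (toC (trig (Real.pi / g) 1)) (toC (trig (Real.pi / g) (-1))) := by
      intro m n
      rw [stft_norm_iff, Psi_trig, Psi_trig, norm_mul, norm_mul]
      have hw : Real.sin (2 * (((Real.pi / g : ℝ) : ℂ) *
          (((a * m + b * n : ℝ) : ℂ) - Complex.I * ((c * m + d * n : ℝ) : ℂ)) / 2).re) = 0 := by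
        have h1 : (2 * (((Real.pi / g : ℝ) : ℂ) *
          (((a * m + b * n : ℝ) : ℂ) - Complex.I * ((c * m + d * n : ℝ) : ℂ)) / 2).re) =
            ((k * m + l * n : ℤ) : ℝ) * Real.pi := by
          have h2 : (((Real.pi / g : ℝ) : ℂ) *
              (((a * m + b * n : ℝ) : ℂ) - Complex.I * ((c * m + d * n : ℝ) : ℂ)) / 2) =
              ((Real.pi / g * (a * m + b * n) / 2 : ℝ) : ℂ) +
                ((-(Real.pi / g * (c * m + d * n) / 2) : ℝ) : ℂ) * Complex.I := by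
            push_cast
            ring
          rw [h2]
          simp only [Complex.add_re, Complex.ofReal_re, Complex.mul_re, Complex.I_re,
            Complex.ofReal_im, Complex.I_im]
          rw [ha, hb]
          push_cast
          field_simp
          ring
        rw [h1]
        exact Real.sin_int_mul_pi _
      have h3 := norm_cos_sin hw
      simpa [sub_eq_add_neg] using h3
    rcases hall _ _ (gaborSum_trig _ _) (gaborSum_trig _ _) hS with h | h
    · have h2 := h (g / 2)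
      unfold trig at h2
      have h3 : Real.pi / g * (g / 2) = Real.pi / 2 := by
        field_simp
      rw [h3, Real.sin_pi_div_two, Real.cos_pi_div_two] at h2
      have h4 := Real.exp_pos (-Real.pi * (g / 2) ^ 2)
      linarith
    · have h2 := h 0
      simp [trig] at h2
      norm_num at h2

/-- (G12c, S/M) PROOF. `Psi_gaborSum`, `samples_iff`. Left to right: `complex_necessary`. Right to left:
`class_identity_of_ratio`, `norm_eq_of_class`. -/
theorem gabor_complex {a b c d : ℝ} (hdet : a * d - b * c ≠ 0) {f h : ℝ → ℂ}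
    (hf : GaborSum f) (hh : GaborSum h) :
    SameSamples a b c d f h ↔ ∃ A B : ℂ → ℂ, GamSum ⟨a, -c⟩ ⟨b, -d⟩ A ∧ GamSum ⟨a, -c⟩ ⟨b, -d⟩ B ∧
      (∃ z, A z ≠ 0) ∧ (∃ z, B z ≠ 0) ∧ (∀ z, B z * Psi h z = A z * Psi f z) ∧
      ∀ m n : ℤ, ‖A (m * (⟨a, -c⟩ : ℂ) + n * (⟨b, -d⟩ : ℂ))‖ =
        ‖B (m * (⟨a, -c⟩ : ℂ) + n * (⟨b, -d⟩ : ℂ))‖ := by
  obtain ⟨n₁, p, ζ, hp⟩ := Psi_gaborSum hf
  obtain ⟨n₂, q, ξ, hq⟩ := Psi_gaborSum hh
  rw [samples_iff hp hq]
  constructor
  · intro H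
    obtain ⟨A, B, hA, hB, hA0, hB0, hr, hn⟩ := complex_necessary (g12_det hdet) H
    refine ⟨A, B, hA, hB, hA0, hB0, fun z => ?_, hn⟩
    rw [hp, hq]
    linear_combination Complex.exp (Real.pi * z ^ 2 / 2) * hr z
  · rintro ⟨A, B, ⟨k, x, α, hα, hA⟩, ⟨l, y, β, hβ, hB⟩, ⟨z₁, hA0⟩, ⟨z₂, hB0⟩, hr, hn⟩
    have hr' : ∀ z, ex y β z * ex q ξ z = ex x α z * ex p ζ z := by
      intro z
      have h1 := hr z
      rw [hp, hq, hA, hB] at h1
      have h2 : Complex.exp (Real.pi * z ^ 2 / 2) * (ex y β z * ex q ξ z) =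
          Complex.exp (Real.pi * z ^ 2 / 2) * (ex x α z * ex p ζ z) := by
        linear_combination h1
      exact mul_left_cancel₀ (Complex.exp_ne_zero _) h2
    have hcl := class_identity_of_ratio (g12_det hdet) hα hβ
      (fun m n => by rw [← hA, ← hB]; exact hn m n) ⟨z₁, by rw [← hA]; exact hA0⟩
      ⟨z₂, by rw [← hB]; exact hB0⟩ hr'
    exact norm_eq_of_class hcl

end H12G
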